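import Pool.Agent.VM5.Stmts
import Pool.Agent.Helper98_VM5.Kit

set_option autoImplicit false

/-! Part III: the pairs with `Y ≠ 0`. -/

namespace Pool.Agent.VM5.H20

open Finset
open Pool.Agent.VM (Nr)

/-- the coordinates which are counted first -/
def f1 (v : (ℕ × ℕ × ℕ × ℤ) × (ℕ × ℕ × ℕ × ℤ)) : ℕ × ℕ × ℕ × ℤ :=
  (v.2.1, v.2.2.1, v.2.2.2.1, (v.2.2.2.1 : ℤ) * Z3 v.1 - (v.1.2.2.1 : ℤ) * Z3 v.2)

/-- the coordinates which are counted next -/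
def f2 (v : (ℕ × ℕ × ℕ × ℤ) × (ℕ × ℕ × ℕ × ℤ)) : ℕ × ℤ := (v.1.2.2.1, Z3 v.2)

theorem Z3_le (N : ℕ) (S : Finset ℕ) (p : ℕ × ℕ × ℕ × ℤ) (hp : p ∈ P3 N S) :
    |Z3 p| ≤ 4 * (N : ℤ) := by
  unfold P3 at hp
  rw [Finset.mem_product, Finset.mem_product, Finset.mem_product, Finset.mem_Icc, Finset.mem_Icc,
    Finset.mem_Icc] at hp
  unfold Z3
  rw [abs_le]
  obtain ⟨⟨a1, a2⟩, ⟨a3, a4⟩, -, a5, a6⟩ := hp
  have b1 : (1 : ℤ) ≤ p.1 := by exact_mod_cast a1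
  have b2 : (p.1 : ℤ) ≤ N := by exact_mod_cast a2
  have b3 : (1 : ℤ) ≤ p.2.1 := by exact_mod_cast a3
  have b4 : (p.2.1 : ℤ) ≤ N := by exact_mod_cast a4
  constructor <;> linarith

theorem count2 (N D d' : ℕ) (S : Finset ℕ) (hD : 10 < D) (hDN : D ≤ N)
    (hS : ∀ d ∈ S, D < d ∧ d ≤ 2 * D ∧ d.Prime) (hd' : d' ∈ S) (Y : ℤ) :
    (Nat.card {z : ℕ × ℤ // z.1 ∈ S ∧ |z.2| ≤ 4 * (N : ℤ) ∧ (d' : ℤ) ∣ Y + (z.1 : ℤ) * z.2} : ℝ) ≤
      18 * (N : ℝ) := by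
  classical
  have hD0 : (0 : ℝ) < D := by
    have : 0 < D := by omega
    exact_mod_cast this
  have hN1 : (1 : ℝ) ≤ N := by
    have : 1 ≤ N := by omega
    exact_mod_cast this
  have hDN' : (D : ℝ) ≤ N := by exact_mod_cast hDN
  obtain ⟨P, hP⟩ : ∃ P : ℕ × ℤ → Prop,
    P = fun z => z.1 ∈ S ∧ |z.2| ≤ 4 * (N : ℤ) ∧ (d' : ℤ) ∣ Y + (z.1 : ℤ) * z.2 := ⟨_, rfl⟩
  have hfin : {z | P z}.Finite := by
    apply (Finset.finite_toSet (S ×ˢ Finset.Icc (-(4 * (N : ℤ))) (4 * N))).subset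
    intro z hz
    rw [hP] at hz
    have hz' : z.1 ∈ S ∧ |z.2| ≤ 4 * (N : ℤ) ∧ (d' : ℤ) ∣ Y + (z.1 : ℤ) * z.2 := hz
    rw [Finset.mem_coe, Finset.mem_product, Finset.mem_Icc]
    exact ⟨hz'.1, abs_le.1 hz'.2.1⟩
  have h1 : (Nat.card {z : ℕ × ℤ // P z} : ℝ) =
      ∑ y ∈ S, (Nat.card {z : ℕ × ℤ // P z ∧ z.1 = y} : ℝ) := by
    rw [Kit.card_fib hfin Prod.fst S (by
      intro z hz
      rw [hP] at hz
      exact hz.1)]
    push_cast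
    rfl
  have hgoal : (Nat.card {z : ℕ × ℤ // z.1 ∈ S ∧ |z.2| ≤ 4 * (N : ℤ) ∧
      (d' : ℤ) ∣ Y + (z.1 : ℤ) * z.2} : ℝ) = (Nat.card {z : ℕ × ℤ // P z} : ℝ) := by
    rw [hP]
  rw [hgoal, h1]
  have h2 : ∀ y ∈ S, (Nat.card {z : ℕ × ℤ // P z ∧ z.1 = y} : ℝ) ≤
      (1 + 8 * (N : ℝ) / D) + (if y = d' then 1 + 8 * (N : ℝ) else 0) := by
    intro y hy
    obtain ⟨M, hM, hM1, hMs, hMv⟩ : ∃ M : ℕ, 1 ≤ M ∧ (y = d' → M = 1) ∧ (y ≠ d' → M = d') ∧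
        (M ∣ d') := by
      by_cases h : y = d'
      · exact ⟨1, le_refl _, fun _ => rfl, fun h' => absurd h h', one_dvd _⟩
      · exact ⟨d', (hS d' hd').2.2.one_lt.le, fun h' => absurd h' h, fun _ => rfl, dvd_refl _⟩
    have hfin2 : {w : ℤ | ∃ z, (P z ∧ z.1 = y) ∧ z.2 = w}.Finite := by
      apply (hfin.image Prod.snd).subset
      rintro w ⟨z, hz, rfl⟩
      exact ⟨z, hz.1, rfl⟩
    have k1 : Nat.card {z : ℕ × ℤ // P z ∧ z.1 = y} ≤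
        Nat.card {w : ℤ // ∃ z, (P z ∧ z.1 = y) ∧ z.2 = w} := by
      apply Kit.card_inj_le Prod.snd hfin2
      · intro z hz
        exact ⟨z, hz, rfl⟩
      · intro z w hz hw hzw
        exact Prod.ext (hz.2.trans hw.2.symm) hzw
    have k2 : (Nat.card {w : ℤ // ∃ z, (P z ∧ z.1 = y) ∧ z.2 = w} : ℝ) ≤
        1 + (8 * (N : ℝ)) / (M : ℝ) := by
      apply Kit.card_dvd_spaced hfin2 M (8 * (N : ℝ)) hM (by positivity)
      · rintro a b ⟨z, hz, rfl⟩ ⟨w, hw, rfl⟩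
        by_cases h : y = d'
        · rw [hM1 h]
          simp
        · rw [hMs h]
          have a1 : (d' : ℤ) ∣ Y + (z.1 : ℤ) * z.2 := by
            have := hz.1
            rw [hP] at this
            exact this.2.2
          have a2 : (d' : ℤ) ∣ Y + (w.1 : ℤ) * w.2 := by
            have := hw.1
            rw [hP] at this
            exact this.2.2
          rw [hz.2] at a1
          rw [hw.2] at a2
          have a3 := a1.sub a2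
          have e : Y + (y : ℤ) * z.2 - (Y + (y : ℤ) * w.2) = (y : ℤ) * (z.2 - w.2) := by ring
          rw [e] at a3
          have hc : IsCoprime (d' : ℤ) (y : ℤ) := by
            rw [Nat.isCoprime_iff_coprime]
            exact (Nat.coprime_primes (hS d' hd').2.2 (hS y hy).2.2).2 (fun h' => h h'.symm)
          exact hc.dvd_of_dvd_mul_left a3
      · rintro a b ⟨z, hz, rfl⟩ ⟨w, hw, rfl⟩
        have a1 : |z.2| ≤ 4 * (N : ℤ) := by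
          have := hz.1
          rw [hP] at this
          exact this.2.1
        have a2 : |w.2| ≤ 4 * (N : ℤ) := by
          have := hw.1
          rw [hP] at this
          exact this.2.1
        have a3 : |z.2 - w.2| ≤ 8 * (N : ℤ) := by
          rw [abs_le] at a1 a2 ⊢
          constructor <;> linarith [a1.1, a1.2, a2.1, a2.2]
        exact_mod_cast a3
    have k3 : (Nat.card {z : ℕ × ℤ // P z ∧ z.1 = y} : ℝ) ≤ 1 + (8 * (N : ℝ)) / (M : ℝ) :=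
      le_trans (by exact_mod_cast k1) k2
    refine k3.trans ?_
    by_cases h : y = d'
    · rw [hM1 h, if_pos h]
      have : (0 : ℝ) ≤ 8 * (N : ℝ) / D := by positivity
      push_cast
      linarith
    · rw [hMs h, if_neg h]
      have : 8 * (N : ℝ) / (d' : ℝ) ≤ 8 * (N : ℝ) / D := by
        apply div_le_div_of_nonneg_left (by positivity) hD0
        exact_mod_cast (hS d' hd').1.le
      linarith
  refine (Finset.sum_le_sum h2).trans ?_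
  rw [Finset.sum_add_distrib, Finset.sum_const, nsmul_eq_mul, Finset.sum_ite_eq' S d', if_pos hd']
  have h3 : (S.card : ℝ) ≤ D := by
    have : S.card ≤ (Finset.Ioc D (2 * D)).card := by
      apply Finset.card_le_card
      intro d hd
      rw [Finset.mem_Ioc]
      exact ⟨(hS d hd).1, (hS d hd).2.1⟩
    rw [Nat.card_Ioc] at this
    have h4 : S.card ≤ D := by omega
    exact_mod_cast h4
  have h5 : (S.card : ℝ) * (1 + 8 * (N : ℝ) / D) ≤ D * (1 + 8 * (N : ℝ) / D) :=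
    mul_le_mul_of_nonneg_right h3 (by positivity)
  have h6 : (D : ℝ) * (1 + 8 * (N : ℝ) / D) = D + 8 * N := by
    field_simp
  linarith

theorem ey3 (ypt : YptStmt) (ycn : YcnStmt) (vcn : VcnStmt) (dvb : DvbStmt) : Ey3Stmt := by
  intro ε hε
  obtain ⟨ε', hε'⟩ : ∃ ε' : ℝ, ε' = ε / 3 := ⟨_, rfl⟩
  have hε'0 : 0 < ε' := by
    rw [hε']
    positivity
  obtain ⟨C1, hC1, h1⟩ := ycn ε' hε'0
  obtain ⟨C2, hC2, h2⟩ := vcn
  obtain ⟨C3, hC3, h3⟩ := dvb ε' hε'0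
  refine ⟨C1 * 18 * C2 * C3, by positivity, ?_⟩
  intro N D K U G t b S hPar
  have hPar' := hPar
  obtain ⟨q1, q2, q3, q4, q5, q6, q7, q8, q9, q10, q11, q12, qS⟩ := hPar
  have hD1 : 1 ≤ D := by omega
  have hK : 1 ≤ K := by omega
  have hDN : D ≤ N := by
    have h : D ≤ D ^ 8 := Nat.le_self_pow (by norm_num) D
    exact h.trans q4
  have hN : 1 ≤ N := by omega
  have hN0 : (0 : ℝ) < N := by exact_mod_cast hN
  have hN1 : (1 : ℝ) ≤ N := by exact_mod_cast hN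
  have hD0 : (0 : ℝ) < D := by exact_mod_cast hD1
  have hG0 : 0 < G := by linarith
  obtain ⟨P, hP⟩ : ∃ P : (ℕ × ℕ × ℕ × ℤ) × (ℕ × ℕ × ℕ × ℤ) → Prop,
    P = fun v => v.1 ∈ P3 N S ∧ v.2 ∈ P3 N S ∧
        Close3 K t v ∧ (v.2.2.2.1 : ℤ) * Z3 v.1 ≠ (v.1.2.2.1 : ℤ) * Z3 v.2 := ⟨_, rfl⟩
  have hP' : ∀ v, P v → v.1 ∈ P3 N S ∧ v.2 ∈ P3 N S ∧
        Close3 K t v ∧ (v.2.2.2.1 : ℤ) * Z3 v.1 ≠ (v.1.2.2.1 : ℤ) * Z3 v.2 := by
    intro v hv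
    rw [hP] at hv
    exact hv
  have hmem : ∀ p ∈ P3 N S, (1 ≤ p.1 ∧ p.1 ≤ N) ∧ (1 ≤ p.2.1 ∧ p.2.1 ≤ N) ∧ p.2.2.1 ∈ S := by
    intro p hp
    unfold P3 at hp
    rw [Finset.mem_product, Finset.mem_product, Finset.mem_product, Finset.mem_Icc,
      Finset.mem_Icc] at hp
    exact ⟨hp.1, hp.2.1, hp.2.2.1⟩
  have hfin : {v | P v}.Finite := by
    apply (Finset.finite_toSet (P3 N S ×ˢ P3 N S)).subset
    intro v hv
    rw [Finset.mem_coe, Finset.mem_product]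
    exact ⟨(hP' v hv).1, (hP' v hv).2.1⟩
  have hgoal : (Nat.card {v : (ℕ × ℕ × ℕ × ℤ) × (ℕ × ℕ × ℕ × ℤ) // v.1 ∈ P3 N S ∧ v.2 ∈ P3 N S ∧
        Close3 K t v ∧ (v.2.2.2.1 : ℤ) * Z3 v.1 ≠ (v.1.2.2.1 : ℤ) * Z3 v.2} : ℝ) =
      (Nat.card {v // P v} : ℝ) := by
    rw [hP]
  rw [hgoal]
  -- the first coordinates
  obtain ⟨Q1, hQ1⟩ : ∃ Q1 : ℕ × ℕ × ℕ × ℤ → Prop, Q1 = fun x => 1 ≤ x.1 ∧ x.1 ≤ N ∧ 1 ≤ x.2.1 ∧
        x.2.1 ≤ N ∧ x.2.2.1 ∈ S ∧ x.2.2.2 ≠ 0 ∧ |x.2.2.2| ≤ 16 * (D : ℤ) * (N : ℤ) ∧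
        Nr (t * ((60 * ((x.1 : ℤ) * (x.2.1 : ℤ)) * (x.2.2.1 : ℤ) ^ 2 * x.2.2.2 : ℤ) : ℝ))
          (64 * (D : ℝ) / (K : ℝ) ^ 2) := ⟨_, rfl⟩
  have hQ1' : ∀ x, Q1 x → 1 ≤ x.1 ∧ x.1 ≤ N ∧ 1 ≤ x.2.1 ∧
        x.2.1 ≤ N ∧ x.2.2.1 ∈ S ∧ x.2.2.2 ≠ 0 ∧ |x.2.2.2| ≤ 16 * (D : ℤ) * (N : ℤ) ∧
        Nr (t * ((60 * ((x.1 : ℤ) * (x.2.1 : ℤ)) * (x.2.2.1 : ℤ) ^ 2 * x.2.2.2 : ℤ) : ℝ))
          (64 * (D : ℝ) / (K : ℝ) ^ 2) := by
    intro x hx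
    rw [hQ1] at hx
    exact hx
  have hcard1 : (Nat.card {x // Q1 x} : ℝ) ≤ C1 * (N : ℝ) ^ (1 + ε') * (D : ℝ) ^ 6 := by
    rw [hQ1]
    exact h1 N D K U G t b S hPar'
  have hQfin : {x | Q1 x}.Finite := by
    apply (Finset.finite_toSet (Finset.Icc 1 N ×ˢ Finset.Icc 1 N ×ˢ S ×ˢ
      Finset.Icc (-(16 * (D : ℤ) * (N : ℤ))) (16 * (D : ℤ) * (N : ℤ)))).subset
    intro x hx
    have := hQ1' x hx
    rw [Finset.mem_coe, Finset.mem_product, Finset.mem_product, Finset.mem_product, Finset.mem_Icc,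
      Finset.mem_Icc, Finset.mem_Icc]
    exact ⟨⟨this.1, this.2.1⟩, ⟨this.2.2.1, this.2.2.2.1⟩, this.2.2.2.2.1,
      abs_le.1 this.2.2.2.2.2.2.1⟩
  have hf1 : ∀ v, P v → Q1 (f1 v) := by
    intro v hv
    obtain ⟨a1, a2, a3, a4⟩ := hP' v hv
    obtain ⟨b1, b2, b3⟩ := hmem v.1 a1
    obtain ⟨c1, c2, c3⟩ := hmem v.2 a2
    rw [hQ1]
    refine ⟨c1.1, c1.2, c2.1, c2.2, c3, sub_ne_zero.2 a4, ?_, ?_⟩
    · have z1 := Z3_le N S v.1 a1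
      have z2 := Z3_le N S v.2 a2
      have e1 : |(v.2.2.2.1 : ℤ) * Z3 v.1 - (v.1.2.2.1 : ℤ) * Z3 v.2| ≤
          (2 * (D : ℤ)) * (4 * N) + (2 * (D : ℤ)) * (4 * N) := by
        refine (abs_sub _ _).trans ?_
        rw [abs_mul, abs_mul, Nat.abs_cast, Nat.abs_cast]
        apply add_le_add
        · apply mul_le_mul _ z1 (abs_nonneg _) (by positivity)
          exact_mod_cast (qS _ c3).2.1
        · apply mul_le_mul _ z2 (abs_nonneg _) (by positivity)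
          exact_mod_cast (qS _ b3).2.1
      have e2 : (2 * (D : ℤ)) * (4 * N) + (2 * (D : ℤ)) * (4 * N) = 16 * (D : ℤ) * (N : ℤ) := by
        ring
      rw [e2] at e1
      exact e1
    · exact ypt N D K U G t b S hPar' v.1 a1 v.2 a2 a3
  -- the last bound
  have hlast : ∀ (y : ℕ × ℕ × ℕ × ℤ), Q1 y → ∀ (z : ℕ × ℤ) (w : ℤ), 1 ≤ w → w ≤ (N : ℤ) ^ 2 →
      (Nat.card {v // ((P v ∧ f1 v = y) ∧ f2 v = z) ∧ V3 v.1 = w} : ℝ) ≤
        C3 * (N : ℝ) ^ (2 * ε') := by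
    intro y hy z w hw1 hw2
    have hw0 : w ≠ 0 := by omega
    have hfinD : {x : ℤ × ℤ × ℤ × ℤ | x.1 * x.2.1 * x.2.2.1 * x.2.2.2 = w}.Finite := by
      by_contra hinf
      have hinf' : Set.Infinite {x : ℤ × ℤ × ℤ × ℤ | x.1 * x.2.1 * x.2.2.1 * x.2.2.2 = w} := hinf
      apply hinf'
      have hsub : {x : ℤ × ℤ × ℤ × ℤ | x.1 * x.2.1 * x.2.2.1 * x.2.2.2 = w} ⊆
          ((Finset.Icc (-|w|) |w| ×ˢ Finset.Icc (-|w|) |w| ×ˢ Finset.Icc (-|w|) |w| ×ˢ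
            Finset.Icc (-|w|) |w| : Finset (ℤ × ℤ × ℤ × ℤ)) : Set (ℤ × ℤ × ℤ × ℤ)) := by
        intro x hx
        have hx' : x.1 * x.2.1 * x.2.2.1 * x.2.2.2 = w := hx
        have d1 : x.1 ∣ w := ⟨x.2.1 * x.2.2.1 * x.2.2.2, by rw [← hx']; ring⟩
        have d2 : x.2.1 ∣ w := ⟨x.1 * x.2.2.1 * x.2.2.2, by rw [← hx']; ring⟩
        have d3 : x.2.2.1 ∣ w := ⟨x.1 * x.2.1 * x.2.2.2, by rw [← hx']; ring⟩
        have d4 : x.2.2.2 ∣ w := ⟨x.1 * x.2.1 * x.2.2.1, by rw [← hx']; ring⟩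
        have bd : ∀ a : ℤ, a ∣ w → a ∈ Finset.Icc (-|w|) |w| := by
          intro a ha
          rw [Finset.mem_Icc, ← abs_le]
          have := Int.le_of_dvd (abs_pos.2 hw0) ((abs_dvd_abs a w).2 ha)
          exact this
        rw [Finset.mem_coe, Finset.mem_product, Finset.mem_product, Finset.mem_product]
        exact ⟨bd _ d1, bd _ d2, bd _ d3, bd _ d4⟩
      exact (Finset.finite_toSet _).subset hsub
    have k1 : Nat.card {v // ((P v ∧ f1 v = y) ∧ f2 v = z) ∧ V3 v.1 = w} ≤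
        Nat.card {x : ℤ × ℤ × ℤ × ℤ // x.1 * x.2.1 * x.2.2.1 * x.2.2.2 = w} := by
      apply Kit.card_inj_le (fun v : (ℕ × ℕ × ℕ × ℤ) × (ℕ × ℕ × ℕ × ℤ) =>
        (((v.1.1 : ℕ) : ℤ), ((v.1.2.1 : ℕ) : ℤ), (1 : ℤ), (1 : ℤ))) hfinD
      · intro v hv
        have : V3 v.1 = w := hv.2
        unfold V3 at this
        simp only [mul_one]
        exact this
      · intro v v' hv hv' hvv
        have e1 : ((v.1.1 : ℕ) : ℤ) = ((v'.1.1 : ℕ) : ℤ) := congrArg Prod.fst hvv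
        have e2 : ((v.1.2.1 : ℕ) : ℤ) = ((v'.1.2.1 : ℕ) : ℤ) :=
          congrArg Prod.fst (congrArg Prod.snd hvv)
        have e1' : v.1.1 = v'.1.1 := by exact_mod_cast e1
        have e2' : v.1.2.1 = v'.1.2.1 := by exact_mod_cast e2
        have g1 : f1 v = f1 v' := hv.1.1.2.trans hv'.1.1.2.symm
        have g2 : f2 v = f2 v' := hv.1.2.trans hv'.1.2.symm
        unfold f1 at g1
        unfold f2 at g2
        obtain ⟨i1, g1b⟩ := Prod.mk.inj g1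
        obtain ⟨i2, g1c⟩ := Prod.mk.inj g1b
        obtain ⟨i3, i4⟩ := Prod.mk.inj g1c
        obtain ⟨i5, i6⟩ := Prod.mk.inj g2
        have i7 : v.2.2.2.2 = v'.2.2.2.2 := by
          unfold Z3 at i6
          rw [i1, i2] at i6
          linarith
        rw [i3, i5, i6] at i4
        have hd'0 : ((v'.2.2.2.1 : ℕ) : ℤ) ≠ 0 := by
          have := (qS _ (hmem v'.2 (hP' v' hv'.1.1.1).2.1).2.2).2.2.pos
          omega
        have i8 : Z3 v.1 = Z3 v'.1 := by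
          have : (v'.2.2.2.1 : ℤ) * Z3 v.1 = (v'.2.2.2.1 : ℤ) * Z3 v'.1 := by linarith
          exact mul_left_cancel₀ hd'0 this
        have i9 : v.1.2.2.2 = v'.1.2.2.2 := by
          unfold Z3 at i8
          rw [e1', e2'] at i8
          linarith
        apply Prod.ext
        · exact Prod.ext e1' (Prod.ext e2' (Prod.ext i5 i9))
        · exact Prod.ext i1 (Prod.ext i2 (Prod.ext i3 i7))
    have k2 := h3 w hw0
    have k3 : |(w : ℝ)| ^ ε' ≤ (N : ℝ) ^ (2 * ε') := by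
      have a1 : |(w : ℝ)| ≤ (N : ℝ) ^ (2 : ℝ) := by
        rw [abs_of_nonneg (by exact_mod_cast (by omega : (0 : ℤ) ≤ w))]
        have : (w : ℝ) ≤ (N : ℝ) ^ 2 := by exact_mod_cast hw2
        rw [Real.rpow_two]
        exact this
      calc |(w : ℝ)| ^ ε' ≤ ((N : ℝ) ^ (2 : ℝ)) ^ ε' :=
            Real.rpow_le_rpow (abs_nonneg _) a1 hε'0.le
        _ = (N : ℝ) ^ (2 * ε') := by rw [← Real.rpow_mul hN0.le]
    calc (Nat.card {v // ((P v ∧ f1 v = y) ∧ f2 v = z) ∧ V3 v.1 = w} : ℝ)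
        ≤ (Nat.card {x : ℤ × ℤ × ℤ × ℤ // x.1 * x.2.1 * x.2.2.1 * x.2.2.2 = w} : ℝ) := by
          exact_mod_cast k1
      _ ≤ C3 * |(w : ℝ)| ^ ε' := k2
      _ ≤ C3 * (N : ℝ) ^ (2 * ε') := mul_le_mul_of_nonneg_left k3 hC3.le
  -- the third bound
  have hthird : ∀ (y : ℕ × ℕ × ℕ × ℤ), Q1 y → ∀ (z : ℕ × ℤ), z.1 ∈ S →
      (Nat.card {v // (P v ∧ f1 v = y) ∧ f2 v = z} : ℝ) ≤
        (C2 * (D : ℝ) ^ 3 * G) * (C3 * (N : ℝ) ^ (2 * ε')) := by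
    intro y hy z hz
    obtain ⟨c, hc⟩ : ∃ c : ℝ, c = t * ((20 * ((y.1 : ℤ) * (y.2.1 : ℤ)) * (y.2.2.1 : ℤ) ^ 3 : ℤ) : ℝ) :=
      ⟨_, rfl⟩
    have hfin3 : {w : ℤ | 1 ≤ w ∧ w ≤ (N : ℤ) ^ 2 ∧
        Nr (20 * t * (z.1 : ℝ) ^ 3 * (w : ℝ) - c) (1 / (K : ℝ) ^ 3)}.Finite := by
      apply (Finset.finite_toSet (Finset.Icc 1 ((N : ℤ) ^ 2))).subset
      intro w hw
      rw [Finset.mem_coe, Finset.mem_Icc]
      exact ⟨hw.1, hw.2.1⟩
    have k1 := Kit.card_fib_le' (P := fun v => (P v ∧ f1 v = y) ∧ f2 v = z)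
      (Q := fun w : ℤ => 1 ≤ w ∧ w ≤ (N : ℤ) ^ 2 ∧
        Nr (20 * t * (z.1 : ℝ) ^ 3 * (w : ℝ) - c) (1 / (K : ℝ) ^ 3))
      (hfin.subset (fun v hv => hv.1.1)) hfin3 (fun v => V3 v.1) (C3 * (N : ℝ) ^ (2 * ε')) (by
        intro v hv
        obtain ⟨a1, a2, a3, a4⟩ := hP' v hv.1.1
        obtain ⟨b1, b2, b3⟩ := hmem v.1 a1
        have u1 : (1 : ℤ) ≤ v.1.1 := by exact_mod_cast b1.1
        have u2 : (v.1.1 : ℤ) ≤ N := by exact_mod_cast b1.2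
        have u3 : (1 : ℤ) ≤ v.1.2.1 := by exact_mod_cast b2.1
        have u4 : (v.1.2.1 : ℤ) ≤ N := by exact_mod_cast b2.2
        refine ⟨?_, ?_, ?_⟩
        · unfold V3
          nlinarith
        · unfold V3
          rw [sq]
          exact mul_le_mul u2 u4 (by linarith) (by linarith)
        · have k := a3 (2 : Fin 3)
          have g1 : f1 v = y := hv.1.2
          have g2 : f2 v = z := hv.2
          have i1 : v.2.1 = y.1 := by rw [← g1]; rfl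
          have i2 : v.2.2.1 = y.2.1 := by rw [← g1]; rfl
          have i3 : v.2.2.2.1 = y.2.2.1 := by rw [← g1]; rfl
          have i5 : v.1.2.2.1 = z.1 := by rw [← g2]; rfl
          have e1 : t * (co3 2 v.1 : ℝ) - t * (co3 2 v.2 : ℝ) =
              20 * t * (z.1 : ℝ) ^ 3 * ((V3 v.1 : ℤ) : ℝ) - c := by
            have e2 : co3 2 v.1 = n3 v.1 := rfl
            have e3 : co3 2 v.2 = n3 v.2 := rfl
            rw [e2, e3, hc]
            unfold n3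
            rw [i3, i5]
            unfold V3
            rw [i1, i2]
            push_cast
            ring
          rw [e1] at k
          exact k) (by
        intro w hw
        exact hlast y hy z w hw.1 hw.2.1)
    refine k1.trans ?_
    apply mul_le_mul_of_nonneg_right _ (by positivity)
    exact h2 N D K U G t b S hPar' z.1 hz c
  -- the second bound
  have hsecond : ∀ (y : ℕ × ℕ × ℕ × ℤ), Q1 y →
      (Nat.card {v // P v ∧ f1 v = y} : ℝ) ≤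
        (18 * (N : ℝ)) * ((C2 * (D : ℝ) ^ 3 * G) * (C3 * (N : ℝ) ^ (2 * ε'))) := by
    intro y hy
    have hy' := hQ1' y hy
    have hfin2 : {z : ℕ × ℤ | z.1 ∈ S ∧ |z.2| ≤ 4 * (N : ℤ) ∧
        (y.2.2.1 : ℤ) ∣ y.2.2.2 + (z.1 : ℤ) * z.2}.Finite := by
      apply (Finset.finite_toSet (S ×ˢ Finset.Icc (-(4 * (N : ℤ))) (4 * N))).subset
      intro z hz
      rw [Finset.mem_coe, Finset.mem_product, Finset.mem_Icc]
      exact ⟨hz.1, abs_le.1 hz.2.1⟩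
    have k1 := Kit.card_fib_le' (P := fun v => P v ∧ f1 v = y)
      (Q := fun z : ℕ × ℤ => z.1 ∈ S ∧ |z.2| ≤ 4 * (N : ℤ) ∧
        (y.2.2.1 : ℤ) ∣ y.2.2.2 + (z.1 : ℤ) * z.2)
      (hfin.subset (fun v hv => hv.1)) hfin2 f2
      ((C2 * (D : ℝ) ^ 3 * G) * (C3 * (N : ℝ) ^ (2 * ε'))) (by
        intro v hv
        obtain ⟨a1, a2, a3, a4⟩ := hP' v hv.1
        obtain ⟨b1, b2, b3⟩ := hmem v.1 a1
        refine ⟨b3, Z3_le N S v.2 a2, ?_⟩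
        have g1 : f1 v = y := hv.2
        have i3 : v.2.2.2.1 = y.2.2.1 := by rw [← g1]; rfl
        have i4 : (v.2.2.2.1 : ℤ) * Z3 v.1 - (v.1.2.2.1 : ℤ) * Z3 v.2 = y.2.2.2 := by
          rw [← g1]; rfl
        rw [← i3, ← i4]
        refine ⟨Z3 v.1, ?_⟩
        unfold f2
        ring) (by
        intro z hz
        exact hthird y hy z hz.1)
    refine k1.trans ?_
    apply mul_le_mul_of_nonneg_right _ (by positivity)
    exact count2 N D y.2.2.1 S q3 hDN qS hy'.2.2.2.2.1 y.2.2.2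
  have hfirst := Kit.card_fib_le' (P := P) (Q := Q1) hfin hQfin f1
    ((18 * (N : ℝ)) * ((C2 * (D : ℝ) ^ 3 * G) * (C3 * (N : ℝ) ^ (2 * ε')))) hf1 hsecond
  refine hfirst.trans ?_
  have e1 : (N : ℝ) ^ (1 + ε') * (N : ℝ) * (N : ℝ) ^ (2 * ε') * N = (N : ℝ) ^ (3 + ε) := by
    have n1 : (N : ℝ) ^ (1 : ℝ) = N := Real.rpow_one _
    calc (N : ℝ) ^ (1 + ε') * (N : ℝ) * (N : ℝ) ^ (2 * ε') * N
        = (N : ℝ) ^ (1 + ε') * (N : ℝ) ^ (1 : ℝ) * (N : ℝ) ^ (2 * ε') * (N : ℝ) ^ (1 : ℝ) := by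
          rw [n1]
      _ = (N : ℝ) ^ (3 + ε) := by
          rw [← Real.rpow_add hN0, ← Real.rpow_add hN0, ← Real.rpow_add hN0]
          congr 1
          rw [hε']
          ring
  have e2 : (D : ℝ) ^ 8 ≤ N := by exact_mod_cast q4
  calc (Nat.card {x // Q1 x} : ℝ) * ((18 * (N : ℝ)) * ((C2 * (D : ℝ) ^ 3 * G) *
        (C3 * (N : ℝ) ^ (2 * ε'))))
      ≤ (C1 * (N : ℝ) ^ (1 + ε') * (D : ℝ) ^ 6) * ((18 * (N : ℝ)) * ((C2 * (D : ℝ) ^ 3 * G) *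
        (C3 * (N : ℝ) ^ (2 * ε')))) := mul_le_mul_of_nonneg_right hcard1 (by positivity)
    _ = (C1 * 18 * C2 * C3) * ((N : ℝ) ^ (1 + ε') * (N : ℝ) * (N : ℝ) ^ (2 * ε')) *
        (D : ℝ) ^ 8 * (D * G) := by ring
    _ ≤ (C1 * 18 * C2 * C3) * ((N : ℝ) ^ (1 + ε') * (N : ℝ) * (N : ℝ) ^ (2 * ε')) *
        N * (D * G) := by
        apply mul_le_mul_of_nonneg_right _ (by positivity)
        exact mul_le_mul_of_nonneg_left e2 (by positivity)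
    _ = (C1 * 18 * C2 * C3) * ((N : ℝ) ^ (1 + ε') * (N : ℝ) * (N : ℝ) ^ (2 * ε') * N) *
        (D * G) := by ring
    _ = C1 * 18 * C2 * C3 * (N : ℝ) ^ (3 + ε) * D * G := by
        rw [e1]
        ring

end Pool.Agent.VM5.H20
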