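import Pool.Agent.VM5.Stmts

set_option autoImplicit false

/-! Coprime pairs in a lattice with slopes in a short interval. -/

namespace Pool.Agent.VM5.H20

open Finset

theorem sep (p q : ℕ × ℕ) (Y M : ℕ) (hM : 1 ≤ M) (hp1 : 1 ≤ p.1) (hp2 : 1 ≤ p.2) (hpY : p.2 ≤ Y)
    (hpc : Nat.Coprime p.1 p.2) (hq2 : 1 ≤ q.2) (hqY : q.2 ≤ Y)
    (hqc : Nat.Coprime q.1 q.2) (hne : p ≠ q)
    (hd : (M : ℤ) ∣ (p.1 : ℤ) * (q.2 : ℤ) - (q.1 : ℤ) * (p.2 : ℤ)) :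
    (M : ℝ) / (Y : ℝ) ^ 2 ≤ |(p.1 : ℝ) / (p.2 : ℝ) - (q.1 : ℝ) / (q.2 : ℝ)| := by
  have h0 : (p.1 : ℤ) * (q.2 : ℤ) - (q.1 : ℤ) * (p.2 : ℤ) ≠ 0 := by
    intro h
    apply hne
    have h1 : p.1 * q.2 = q.1 * p.2 := by
      have : (p.1 : ℤ) * (q.2 : ℤ) = (q.1 : ℤ) * (p.2 : ℤ) := by linarith
      exact_mod_cast this
    have h2 : p.2 ∣ q.2 := by
      have : p.2 ∣ p.1 * q.2 := ⟨q.1, by rw [h1]; ring⟩
      exact hpc.symm.dvd_of_dvd_mul_left this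
    have h3 : q.2 ∣ p.2 := by
      have : q.2 ∣ q.1 * p.2 := ⟨p.1, by rw [← h1]; ring⟩
      exact hqc.symm.dvd_of_dvd_mul_left this
    have h4 : p.2 = q.2 := Nat.dvd_antisymm h2 h3
    rw [h4] at h1
    have h5 : p.1 = q.1 := Nat.eq_of_mul_eq_mul_right (by omega) h1
    exact Prod.ext h5 h4
  have h1 : (M : ℝ) ≤ |(p.1 : ℝ) * (q.2 : ℝ) - (q.1 : ℝ) * (p.2 : ℝ)| := by
    have h2 : (M : ℤ) ≤ |(p.1 : ℤ) * (q.2 : ℤ) - (q.1 : ℤ) * (p.2 : ℤ)| := by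
      apply Int.le_of_dvd (abs_pos.2 h0)
      exact (dvd_abs _ _).2 hd
    exact_mod_cast h2
  have hp0 : (0 : ℝ) < p.2 := by exact_mod_cast hp2
  have hq0 : (0 : ℝ) < q.2 := by exact_mod_cast hq2
  have hY0 : (0 : ℝ) < Y := by
    have : 0 < Y := by omega
    exact_mod_cast this
  have h2 : (p.1 : ℝ) / (p.2 : ℝ) - (q.1 : ℝ) / (q.2 : ℝ) =
      ((p.1 : ℝ) * (q.2 : ℝ) - (q.1 : ℝ) * (p.2 : ℝ)) / ((p.2 : ℝ) * (q.2 : ℝ)) := by
    field_simp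
  rw [h2, abs_div, abs_of_pos (mul_pos hp0 hq0)]
  have hM0 : (0 : ℝ) ≤ M := Nat.cast_nonneg M
  have h3 : (p.2 : ℝ) * (q.2 : ℝ) ≤ (Y : ℝ) ^ 2 := by
    rw [sq]
    have a : (p.2 : ℝ) ≤ Y := by exact_mod_cast hpY
    have b : (q.2 : ℝ) ≤ Y := by exact_mod_cast hqY
    exact mul_le_mul a b hq0.le hY0.le
  exact div_le_div₀ (hM0.trans h1) h1 (mul_pos hp0 hq0) h3

theorem slp : SlpStmt := by
  intro P Y M α ℓ hM hℓ hP hD
  rcases Finset.eq_empty_or_nonempty P with rfl | ⟨p0, hp0⟩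
  · simp only [Finset.card_empty, Nat.cast_zero]
    positivity
  have hY : 1 ≤ Y := by
    have := hP p0 hp0
    omega
  have hY0 : (0 : ℝ) < Y := by exact_mod_cast hY
  have hM0 : (0 : ℝ) < M := by exact_mod_cast hM
  obtain ⟨δ, hδ⟩ : ∃ δ : ℝ, δ = (M : ℝ) / (Y : ℝ) ^ 2 := ⟨_, rfl⟩
  have hδ0 : 0 < δ := by
    rw [hδ]
    positivity
  have hcard : P.card ≤ ⌊ℓ / δ⌋₊ + 1 := by
    have h1 : P.card ≤ (Finset.range (⌊ℓ / δ⌋₊ + 1)).card := by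
      apply Finset.card_le_card_of_injOn (fun p => ⌊((p.1 : ℝ) / (p.2 : ℝ) - α) / δ⌋₊)
      · intro p hp
        have h := hP p hp
        rw [Finset.mem_coe, Finset.mem_range]
        apply Nat.lt_succ_of_le
        apply Nat.floor_le_floor
        apply div_le_div_of_nonneg_right _ hδ0.le
        linarith [h.2.2.2.2.2]
      · intro p hp q hq hpq
        by_contra hne
        have h := hP p hp
        have h' := hP q hq
        have hs := sep p q Y M hM h.1 h.2.1 h.2.2.1 h.2.2.2.1 h'.2.1 h'.2.2.1 h'.2.2.2.1 hne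
          (hD p hp q hq)
        rw [← hδ] at hs
        have hpq' : ⌊((p.1 : ℝ) / (p.2 : ℝ) - α) / δ⌋₊ = ⌊((q.1 : ℝ) / (q.2 : ℝ) - α) / δ⌋₊ := hpq
        have a1 := Nat.floor_le (a := ((p.1 : ℝ) / (p.2 : ℝ) - α) / δ)
          (div_nonneg (by linarith [h.2.2.2.2.1]) hδ0.le)
        have a2 := Nat.floor_le (a := ((q.1 : ℝ) / (q.2 : ℝ) - α) / δ)
          (div_nonneg (by linarith [h'.2.2.2.2.1]) hδ0.le)
        have a3 := Nat.lt_floor_add_one (((p.1 : ℝ) / (p.2 : ℝ) - α) / δ)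
        have a4 := Nat.lt_floor_add_one (((q.1 : ℝ) / (q.2 : ℝ) - α) / δ)
        rw [hpq'] at a1 a3
        have b : |((p.1 : ℝ) / (p.2 : ℝ) - α) / δ - ((q.1 : ℝ) / (q.2 : ℝ) - α) / δ| < 1 := by
          rw [abs_lt]
          constructor <;> linarith
        have c : ((p.1 : ℝ) / (p.2 : ℝ) - α) / δ - ((q.1 : ℝ) / (q.2 : ℝ) - α) / δ =
            ((p.1 : ℝ) / (p.2 : ℝ) - (q.1 : ℝ) / (q.2 : ℝ)) / δ := by ring
        rw [c, abs_div, abs_of_pos hδ0, div_lt_one hδ0] at b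
        linarith
    rw [Finset.card_range] at h1
    exact h1
  have h2 : (P.card : ℝ) ≤ (⌊ℓ / δ⌋₊ : ℝ) + 1 := by exact_mod_cast hcard
  have h3 := Nat.floor_le (div_nonneg hℓ hδ0.le)
  have h4 : ℓ / δ = ℓ * (Y : ℝ) ^ 2 / (M : ℝ) := by
    rw [hδ]
    field_simp
  rw [← h4]
  linarith

end Pool.Agent.VM5.H20
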