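import Pool.Agent.Helper20_Mont.GenMean

set_option autoImplicit false

/-! Weyl's inequality, with a linear term, for `N ≤ q ≤ N ^ (k - 1)`. -/

namespace Pool.Agent.Helper20_VM5

open Finset Polynomial Pool.Agent.Helper69_Weyl Pool.Agent.Helper20_Mont

theorem Df_smul (F : ℤ → ℂ) (c : ℂ) (h : ℤ) :
    Df h (fun n => c * F n) = fun n => (c * (starRingEnd ℂ) c) * Df h F n := by
  funext n
  unfold Df
  rw [map_mul]
  ring

theorem Sig_smul (N : ℕ) (j : ℕ) : ∀ (F : ℤ → ℂ) (c : ℂ), ‖c‖ = 1 →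
    Sig N j (fun n => c * F n) = Sig N j F := by
  induction j with
  | zero =>
    intro F c hc
    unfold Sig TS
    rw [← Finset.mul_sum, norm_mul, hc, one_mul]
  | succ j ih =>
    intro F c hc
    unfold Sig
    apply Finset.sum_congr rfl
    intro h _
    rw [Df_smul]
    apply ih
    rw [norm_mul, RCLike.norm_conj, hc, one_mul]

theorem Df_lin (F : ℤ → ℂ) (ξ : ℝ) (h : ℤ) :
    Df h (fun n => F n * ee (ξ * (n : ℝ))) = fun n => ee (ξ * (h : ℝ)) * Df h F n := by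
  funext n
  unfold Df
  rw [map_mul, conj_ee]
  have h1 : ee (ξ * ((n + h : ℤ) : ℝ)) * ee (-(ξ * (n : ℝ))) = ee (ξ * (h : ℝ)) := by
    rw [← ee_add]
    congr 1
    push_cast
    ring
  rw [← h1]
  ring

theorem Sig_lin (N j : ℕ) (F : ℤ → ℂ) (ξ : ℝ) :
    Sig N (j + 1) (fun n => F n * ee (ξ * (n : ℝ))) = Sig N (j + 1) F := by
  unfold Sig
  apply Finset.sum_congr rfl
  intro h _
  rw [Df_lin]
  exact Sig_smul N j _ _ (norm_ee _)

theorem W_eq_TS (k N : ℕ) (t ξ : ℝ) :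
    W k N t ξ = TS N (fun n => F0 k N t n * ee (ξ * (n : ℝ))) := by
  rw [W_int]
  unfold TS
  apply Finset.sum_congr rfl
  intro n hn
  unfold F0 Gp
  simp only
  rw [if_pos hn, ← ee_add]
  congr 1
  rw [Polynomial.eval_pow, Polynomial.eval_X]
  push_cast
  ring

theorem weyl_Vs (j N : ℕ) (t ξ : ℝ) :
    ‖W (j + 2) N t ξ‖ ^ (2 ^ (j + 1)) ≤ ((2 * N + 1 : ℕ) : ℝ) ^ (2 ^ (j + 1) - (j + 1) - 1) *
      Vs N t (j + 1) (((j + 2).factorial : ℕ) : ℤ) := by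
  have hSu : Su N (fun n => F0 (j + 2) N t n * ee (ξ * (n : ℝ))) := by
    intro n hn
    simp only
    rw [Su_F0 (j + 2) N t n hn, zero_mul]
  have h1 := pow_TS_le N (j + 1) _ hSu
  rw [← W_eq_TS, Sig_lin] at h1
  refine h1.trans ?_
  apply mul_le_mul_of_nonneg_left _ (by positivity)
  have h2 := Sig_Gp_le N t (j + 1) 1 N 1 (X ^ (j + 2)) le_rfl le_rfl (by simp) (by simp)
  rw [Bs_eq_Vs, mul_one] at h2
  exact h2

/-- The multiple sum in the middle range. -/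
theorem Vs_mid (j : ℕ) (δ : ℝ) (hδ : 0 < δ) : ∃ C : ℝ, 0 ≤ C ∧
    ∀ N : ℕ, 1 ≤ N → ∀ (t : ℝ) (a : ℤ) (q : ℕ),
    N ≤ q → q ≤ N ^ (j + 1) → IsCoprime a (q : ℤ) → |t - (a : ℝ) / q| ≤ 1 / (q : ℝ) ^ 2 →
    Vs N t (j + 1) (((j + 2).factorial : ℕ) : ℤ) ≤ C * (N : ℝ) ^ δ * (N : ℝ) ^ (j + 1) := by
  obtain ⟨δ', hδ'⟩ : ∃ δ' : ℝ, δ' = δ / (2 * (j + 1) ^ 2) := ⟨_, rfl⟩
  have hδ'0 : 0 < δ' := by
    rw [hδ']
    positivity
  obtain ⟨D, hD1, hD⟩ := exists_card_divisors_le δ' hδ'0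
  obtain ⟨c, hc⟩ : ∃ c : ℕ, c = (j + 2).factorial := ⟨_, rfl⟩
  have hc1 : 1 ≤ c := by
    rw [hc]
    exact Nat.factorial_pos _
  rw [← hc]
  have hc0 : (0 : ℝ) ≤ c := Nat.cast_nonneg c
  have hD0 : 0 ≤ D := by linarith
  refine ⟨2 ^ (j + 1) * (D ^ j * ((c + 2) * (12 + 2 * (j + 1) / (δ / 2)))) + (j + 1) * 3 ^ (j + 1),
    by positivity, ?_⟩
  intro N hN t a q hNq hqN hcop happ
  have hq : 1 ≤ q := hN.trans hNq
  have hN0 : (0 : ℝ) < N := by exact_mod_cast hN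
  have hN1 : (1 : ℝ) ≤ N := by exact_mod_cast hN
  have hq0 : (0 : ℝ) < q := by exact_mod_cast hq
  have hq1 : (1 : ℝ) ≤ q := by exact_mod_cast hq
  have hNq' : (N : ℝ) ≤ q := by exact_mod_cast hNq
  have hqN' : (q : ℝ) ≤ (N : ℝ) ^ (j + 1) := by exact_mod_cast hqN
  have h1 := Vs_le_Us N t (j + 1) c
  have hNJ : (1 : ℝ) ≤ (N : ℝ) ^ (δ' * (j + 1)) := Real.one_le_rpow hN1 (by positivity)
  have h2 := Us_le N hN t (j + 1) (D * (N : ℝ) ^ (δ' * (j + 1))) (by positivity) (by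
      intro u hu
      rw [Finset.mem_Icc] at hu
      refine (hD u (by omega)).trans ?_
      apply mul_le_mul_of_nonneg_left _ hD0
      have h3 : (u : ℝ) ≤ (N : ℝ) ^ ((j + 1 : ℕ) : ℝ) := by
        rw [Real.rpow_natCast]
        exact_mod_cast hu.2
      calc (u : ℝ) ^ δ' ≤ ((N : ℝ) ^ ((j + 1 : ℕ) : ℝ)) ^ δ' :=
            Real.rpow_le_rpow (Nat.cast_nonneg u) h3 hδ'0.le
        _ = (N : ℝ) ^ (δ' * (j + 1)) := by
            rw [← Real.rpow_mul hN0.le]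
            congr 1
            push_cast
            ring) j le_rfl c
  have h3 := sum_mult t a q hq hcop happ N hN0.le c hc1 (N ^ (j + 1))
  have hlog0 : 0 ≤ Real.log N := Real.log_nonneg hN1
  have hlogq : Real.log q ≤ (j + 1) * Real.log N := by
    have := Real.log_le_log hq0 hqN'
    rw [Real.log_pow] at this
    push_cast at this
    exact this
  have hlogq0 : 0 ≤ Real.log q := Real.log_nonneg hq1
  have hlog : Real.log N ≤ 1 / (δ / 2) * (N : ℝ) ^ (δ / 2) := by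
    have := Real.log_le_rpow_div hN0.le (by positivity : 0 < δ / 2)
    rw [div_eq_inv_mul] at this
    rw [one_div]
    exact this
  have hNd : 1 ≤ (N : ℝ) ^ (δ / 2) := Real.one_le_rpow hN1 (by positivity)
  obtain ⟨Y, hY⟩ : ∃ Y : ℝ, Y = (N : ℝ) ^ (j + 1) := ⟨_, rfl⟩
  have hY0 : 0 < Y := by
    rw [hY]
    positivity
  obtain ⟨E, hE⟩ : ∃ E : ℝ, E = (N : ℝ) ^ (δ / 2) := ⟨_, rfl⟩
  rw [← hE] at hlog hNd
  have h4 : ∑ u ∈ Icc 1 (N ^ (j + 1)), Phi N (t * ((c * u : ℕ) : ℝ)) ≤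
      ((c + 2) * (12 + 2 * (j + 1) / (δ / 2))) * E * Y := by
    refine h3.trans ?_
    have a1 : (c : ℝ) * ((N ^ (j + 1) : ℕ) : ℝ) / q + 2 ≤ (c + 2) * ((N : ℝ) ^ (j + 1) / q) := by
      have h5 : (1 : ℝ) ≤ (N : ℝ) ^ (j + 1) / q := by
        rw [le_div_iff₀ hq0, one_mul]
        exact hqN'
      have e : (c : ℝ) * ((N ^ (j + 1) : ℕ) : ℝ) / q = c * ((N : ℝ) ^ (j + 1) / q) := by
        push_cast
        ring
      rw [e]
      linarith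
    have a2 : 10 * (N : ℝ) + 2 * q * (1 + Real.log q) ≤ q * ((12 + 2 * (j + 1) / (δ / 2)) * E) := by
      have b1 : 10 * (N : ℝ) ≤ 10 * q := by linarith
      have b2 : 12 + 2 * Real.log q ≤ (12 + 2 * (j + 1) / (δ / 2)) * E := by
        have e1 : 2 * (j + 1) * (1 / (δ / 2) * E) = 2 * (j + 1) / (δ / 2) * E := by ring
        have e2 : 2 * Real.log q ≤ 2 * (j + 1) * (1 / (δ / 2) * E) := by
          have := mul_le_mul_of_nonneg_left hlog (by positivity : (0 : ℝ) ≤ 2 * (j + 1))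
          linarith
        nlinarith
      have b3 := mul_le_mul_of_nonneg_left b2 hq0.le
      linarith
    have a3 : 0 ≤ 10 * (N : ℝ) + 2 * q * (1 + Real.log q) := by positivity
    calc ((c : ℝ) * ((N ^ (j + 1) : ℕ) : ℝ) / q + 2) * (10 * N + 2 * q * (1 + Real.log q))
        ≤ ((c + 2) * ((N : ℝ) ^ (j + 1) / q)) * (q * ((12 + 2 * (j + 1) / (δ / 2)) * E)) :=
          mul_le_mul a1 a2 a3 (by positivity)
      _ = _ := by
          rw [hY]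
          field_simp
  have hE0 : 0 ≤ E := by linarith
  have h5 : Us N t (j + 1) c ≤ D ^ j * ((c + 2) * (12 + 2 * (j + 1) / (δ / 2))) * (N : ℝ) ^ δ * Y := by
    refine h2.trans ?_
    have e1 : (D * (N : ℝ) ^ (δ' * (j + 1))) ^ j ≤ D ^ j * E := by
      rw [mul_pow]
      apply mul_le_mul_of_nonneg_left _ (by positivity)
      rw [← Real.rpow_natCast, ← Real.rpow_mul hN0.le, hE]
      apply Real.rpow_le_rpow_of_exponent_le hN1
      rw [hδ']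
      have hjj : (0 : ℝ) < j + 1 := by positivity
      have : δ / (2 * ((j : ℝ) + 1) ^ 2) * (j + 1) * j = δ / 2 * (j / (j + 1)) := by
        field_simp
      rw [this]
      have h6 : (j : ℝ) / (j + 1) ≤ 1 := by
        rw [div_le_one hjj]
        linarith
      calc δ / 2 * ((j : ℝ) / (j + 1)) ≤ δ / 2 * 1 := mul_le_mul_of_nonneg_left h6 (by positivity)
        _ = δ / 2 := mul_one _
    have h40 : 0 ≤ ((c + 2) * (12 + 2 * (j + 1) / (δ / 2))) * E * Y := by positivity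
    calc (D * (N : ℝ) ^ (δ' * (j + 1))) ^ j * ∑ u ∈ Icc 1 (N ^ (j + 1)), Phi N (t * ((c * u : ℕ) : ℝ))
        ≤ (D * (N : ℝ) ^ (δ' * (j + 1))) ^ j * (((c + 2) * (12 + 2 * (j + 1) / (δ / 2))) * E * Y) :=
          mul_le_mul_of_nonneg_left h4 (by positivity)
      _ ≤ (D ^ j * E) * (((c + 2) * (12 + 2 * (j + 1) / (δ / 2))) * E * Y) :=
          mul_le_mul_of_nonneg_right e1 h40
      _ = D ^ j * ((c + 2) * (12 + 2 * (j + 1) / (δ / 2))) * (E * E) * Y := by ring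
      _ = _ := by
          rw [hE, ← Real.rpow_add hN0]
          congr 3
          ring
  have hNδ : 1 ≤ (N : ℝ) ^ δ := Real.one_le_rpow hN1 hδ.le
  have h6 : ((2 * N + 1 : ℕ) : ℝ) ^ (j + 1) ≤ 3 ^ (j + 1) * ((N : ℝ) ^ δ * Y) := by
    have a1 : ((2 * N + 1 : ℕ) : ℝ) ≤ 3 * N := by
      push_cast
      linarith
    have a3 : Y ≤ (N : ℝ) ^ δ * Y := by nlinarith
    calc ((2 * N + 1 : ℕ) : ℝ) ^ (j + 1) ≤ (3 * (N : ℝ)) ^ (j + 1) :=
          pow_le_pow_left₀ (by positivity) a1 _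
      _ = 3 ^ (j + 1) * Y := by rw [mul_pow, hY]
      _ ≤ 3 ^ (j + 1) * ((N : ℝ) ^ δ * Y) :=
          mul_le_mul_of_nonneg_left a3 (by positivity)
  rw [← hY]
  calc Vs N t (j + 1) (c : ℤ) ≤ 2 ^ (j + 1) * Us N t (j + 1) c +
        ((j + 1 : ℕ) : ℝ) * ((2 * N + 1 : ℕ) : ℝ) ^ (j + 1) := h1
    _ ≤ 2 ^ (j + 1) * (D ^ j * ((c + 2) * (12 + 2 * (j + 1) / (δ / 2))) * (N : ℝ) ^ δ * Y) +
        ((j + 1 : ℕ) : ℝ) * (3 ^ (j + 1) * ((N : ℝ) ^ δ * Y)) := by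
        apply add_le_add
        · exact mul_le_mul_of_nonneg_left h5 (by positivity)
        · exact mul_le_mul_of_nonneg_left h6 (by positivity)
    _ = _ := by
        push_cast
        ring

/-- Weyl's inequality with a linear term, in the middle range. -/
theorem weyl_mid (k : ℕ) (hk : 2 ≤ k) (δ : ℝ) (hδ : 0 < δ) : ∃ C : ℝ, 0 ≤ C ∧
    ∀ N : ℕ, 1 ≤ N → ∀ (t ξ : ℝ) (a : ℤ) (q : ℕ),
    N ≤ q → q ≤ N ^ (k - 1) → IsCoprime a (q : ℤ) → |t - (a : ℝ) / q| ≤ 1 / (q : ℝ) ^ 2 →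
    ‖W k N t ξ‖ ^ (2 ^ (k - 1)) ≤ C * (N : ℝ) ^ δ * (N : ℝ) ^ (2 ^ (k - 1) - 1) := by
  obtain ⟨j, rfl⟩ : ∃ j, k = j + 2 := ⟨k - 2, by omega⟩
  have hj1 : j + 2 - 1 = j + 1 := by omega
  rw [hj1]
  obtain ⟨C, hC, h⟩ := Vs_mid j δ hδ
  refine ⟨3 ^ (2 ^ (j + 1) - (j + 1) - 1) * C, by positivity, ?_⟩
  intro N hN t ξ a q hNq hqN hcop happ
  have hN1 : (1 : ℝ) ≤ N := by exact_mod_cast hN
  have h1 := weyl_Vs j N t ξ
  have h2 := h N hN t a q hNq hqN hcop happ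
  have h3 : ((2 * N + 1 : ℕ) : ℝ) ^ (2 ^ (j + 1) - (j + 1) - 1) ≤
      (3 * (N : ℝ)) ^ (2 ^ (j + 1) - (j + 1) - 1) := by
    apply pow_le_pow_left₀ (by positivity)
    push_cast
    linarith
  have hj : j + 2 ≤ 2 ^ (j + 1) := Nat.lt_two_pow_self
  calc ‖W (j + 2) N t ξ‖ ^ (2 ^ (j + 1)) ≤ _ := h1
    _ ≤ ((2 * N + 1 : ℕ) : ℝ) ^ (2 ^ (j + 1) - (j + 1) - 1) *
        (C * (N : ℝ) ^ δ * (N : ℝ) ^ (j + 1)) := mul_le_mul_of_nonneg_left h2 (by positivity)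
    _ ≤ (3 * (N : ℝ)) ^ (2 ^ (j + 1) - (j + 1) - 1) *
        (C * (N : ℝ) ^ δ * (N : ℝ) ^ (j + 1)) := mul_le_mul_of_nonneg_right h3 (by positivity)
    _ = 3 ^ (2 ^ (j + 1) - (j + 1) - 1) * C * (N : ℝ) ^ δ *
        ((N : ℝ) ^ (2 ^ (j + 1) - (j + 1) - 1) * (N : ℝ) ^ (j + 1)) := by
        rw [mul_pow]
        ring
    _ = _ := by
        rw [← pow_add]
        congr 2
        omega

end Pool.Agent.Helper20_VM5
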