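import Pool.Agent.VM5.Stmts
import Pool.Agent.Helper98_VM5.Ta
import Pool.Agent.Helper98_VM5.Kit

set_option autoImplicit false

/-! The number of `(r, r')` for given `(h, h', d, d')`. -/

namespace Pool.Agent.VM5.H20

open Finset
open Pool.Agent.VM (Nr)

/-- `d' Z - d Z'` -/
def YY (h h' d d' : ℕ) (v : ℤ × ℤ) : ℤ :=
  (d' : ℤ) * (2 * v.1 + (h : ℤ)) - (d : ℤ) * (2 * v.2 + (h' : ℤ))

theorem dvd_reduce (u A : ℕ) (hu : 0 < u) (x : ℤ) (h : (u : ℤ) ∣ (A : ℤ) * x) :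
    ((u / Nat.gcd u A : ℕ) : ℤ) ∣ x := by
  have hg : 0 < Nat.gcd u A := Nat.gcd_pos_of_pos_left _ hu
  obtain ⟨u', hu'⟩ := Nat.gcd_dvd_left u A
  obtain ⟨A', hA'⟩ := Nat.gcd_dvd_right u A
  have h1 : u / Nat.gcd u A = u' := Nat.div_eq_of_eq_mul_right hg hu'
  have h2 : A / Nat.gcd u A = A' := Nat.div_eq_of_eq_mul_right hg hA'
  have hc : Nat.Coprime u' A' := by
    have := Nat.coprime_div_gcd_div_gcd (m := u) (n := A) hg
    rwa [h1, h2] at this
  rw [h1]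
  have h3 : ((Nat.gcd u A : ℕ) : ℤ) * (u' : ℤ) ∣ ((Nat.gcd u A : ℕ) : ℤ) * ((A' : ℤ) * x) := by
    have e1 : ((Nat.gcd u A : ℕ) : ℤ) * (u' : ℤ) = (u : ℤ) := by exact_mod_cast hu'.symm
    have e2 : ((Nat.gcd u A : ℕ) : ℤ) * ((A' : ℤ) * x) = (A : ℤ) * x := by
      have : ((Nat.gcd u A : ℕ) : ℤ) * (A' : ℤ) = (A : ℤ) := by exact_mod_cast hA'.symm
      rw [← mul_assoc, this]
    rw [e1, e2]
    exact h
  have h4 : (u' : ℤ) ∣ (A' : ℤ) * x := by
    apply Int.dvd_of_mul_dvd_mul_left _ h3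
    exact_mod_cast hg.ne'
  have hc' : IsCoprime (u' : ℤ) (A' : ℤ) := Nat.isCoprime_iff_coprime.2 hc
  exact hc'.dvd_of_dvd_mul_left h4

/-- the number of `(r, r')` with a given value of `Y` -/
theorem fibY (N D h h' d d' : ℕ) (hD : 10 < D) (hd : D < d) (hdp : d.Prime) (hd'p : d'.Prime)
    (hne : d ≠ d') (P : ℤ × ℤ → Prop) (hfin : {v | P v}.Finite)
    (hP : ∀ v, P v → |v.1| ≤ (N : ℤ)) (Y : ℤ) (hY : ∀ v, P v → YY h h' d d' v = Y) :
    (Nat.card {v : ℤ × ℤ // P v} : ℝ) ≤ 1 + 2 * (N : ℝ) / (D : ℝ) := by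
  have hd0 : (d : ℤ) ≠ 0 := by
    have := hdp.pos
    omega
  have hcop : IsCoprime (d : ℤ) (d' : ℤ) := by
    rw [Nat.isCoprime_iff_coprime]
    exact (Nat.coprime_primes hdp hd'p).2 hne
  have hfin1 : {r : ℤ | ∃ v, P v ∧ v.1 = r}.Finite := by
    apply (hfin.image Prod.fst).subset
    rintro r ⟨v, hv, rfl⟩
    exact ⟨v, hv, rfl⟩
  have h1 : Nat.card {v : ℤ × ℤ // P v} ≤ Nat.card {r : ℤ // ∃ v, P v ∧ v.1 = r} := by
    apply Kit.card_inj_le Prod.fst hfin1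
    · intro v hv
      exact ⟨v, hv, rfl⟩
    · intro v w hv hw hvw
      have a1 := hY v hv
      have a2 := hY w hw
      unfold YY at a1 a2
      have a3 : v.1 = w.1 := hvw
      rw [a3] at a1
      have a4 : (d : ℤ) * (2 * v.2 + (h' : ℤ)) = (d : ℤ) * (2 * w.2 + (h' : ℤ)) := by linarith
      have a5 := mul_left_cancel₀ hd0 a4
      apply Prod.ext a3
      linarith
  have h2 : (Nat.card {r : ℤ // ∃ v, P v ∧ v.1 = r} : ℝ) ≤ 1 + (2 * (N : ℝ)) / (d : ℝ) := by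
    apply Kit.card_dvd_spaced hfin1 d (2 * (N : ℝ)) hdp.one_lt.le (by positivity)
    · rintro x y ⟨v, hv, rfl⟩ ⟨w, hw, rfl⟩
      have a1 := hY v hv
      have a2 := hY w hw
      unfold YY at a1 a2
      have a3 : (d : ℤ) ∣ (d' : ℤ) * (2 * (v.1 - w.1)) := by
        refine ⟨2 * v.2 - 2 * w.2, ?_⟩
        linarith
      have a4 : (d : ℤ) ∣ 2 * (v.1 - w.1) := hcop.dvd_of_dvd_mul_left a3
      have hc2 : IsCoprime (d : ℤ) (2 : ℤ) := by
        have : IsCoprime (d : ℤ) ((2 : ℕ) : ℤ) := by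
          rw [Nat.isCoprime_iff_coprime]
          apply (Nat.coprime_primes hdp Nat.prime_two).2
          omega
        exact_mod_cast this
      exact hc2.dvd_of_dvd_mul_left a4
    · rintro x y ⟨v, hv, rfl⟩ ⟨w, hw, rfl⟩
      have a1 := hP v hv
      have a2 := hP w hw
      have a3 : |v.1 - w.1| ≤ 2 * (N : ℤ) := by
        rw [abs_le] at a1 a2 ⊢
        constructor <;> linarith [a1.1, a1.2, a2.1, a2.2]
      exact_mod_cast a3
  have hD0 : (0 : ℝ) < D := by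
    have : 0 < D := by omega
    exact_mod_cast this
  have h3 : (2 * (N : ℝ)) / (d : ℝ) ≤ 2 * (N : ℝ) / (D : ℝ) := by
    apply div_le_div_of_nonneg_left (by positivity) hD0
    exact_mod_cast hd.le
  have h4 : (Nat.card {v : ℤ × ℤ // P v} : ℝ) ≤ (Nat.card {r : ℤ // ∃ v, P v ∧ v.1 = r} : ℝ) := by
    exact_mod_cast h1
  linarith

/-- general count -/
theorem countZ (N D h h' d d' M : ℕ) (hD : 10 < D) (hd : D < d) (hdp : d.Prime) (hd'p : d'.Prime)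
    (hne : d ≠ d') (P : ℤ × ℤ → Prop) (hfin : {v | P v}.Finite)
    (hP : ∀ v, P v → |v.1| ≤ (N : ℤ)) (σ : ℤ × ℤ → ℤ) (s L : ℝ) (hs : 0 ≤ s) (hL : 0 ≤ L)
    (hM : 1 ≤ M) (hσ : ∀ v, P v → |(σ v : ℝ)| ≤ s)
    (hdv : ∀ v w, P v → P w → σ v = σ w → (M : ℤ) ∣ YY h h' d d' v - YY h h' d d' w)
    (hdL : ∀ v w, P v → P w → σ v = σ w → |(YY h h' d d' v : ℝ) - (YY h h' d d' w : ℝ)| ≤ L) :
    (Nat.card {v : ℤ × ℤ // P v} : ℝ) ≤
      (2 * s + 1) * ((1 + L / (M : ℝ)) * (1 + 2 * (N : ℝ) / (D : ℝ))) := by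
  obtain ⟨B, hB⟩ : ∃ B : Finset ℤ, B = Finset.Icc (-(⌊s⌋)) ⌊s⌋ := ⟨_, rfl⟩
  have hfl : 0 ≤ ⌊s⌋ := Int.floor_nonneg.2 hs
  have hBc : (B.card : ℝ) ≤ 2 * s + 1 := by
    rw [hB, Int.card_Icc]
    have h1 : ((⌊s⌋ + 1 - -⌊s⌋).toNat : ℤ) = 2 * ⌊s⌋ + 1 := by omega
    have h2 : ((⌊s⌋ + 1 - -⌊s⌋).toNat : ℝ) = 2 * (⌊s⌋ : ℝ) + 1 := by exact_mod_cast h1
    rw [h2]
    have := Int.floor_le s
    linarith
  have hm : 0 ≤ (1 + L / (M : ℝ)) * (1 + 2 * (N : ℝ) / (D : ℝ)) := by positivity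
  have key := Kit.card_fib_le hfin σ B ((1 + L / (M : ℝ)) * (1 + 2 * (N : ℝ) / (D : ℝ))) (by
      intro v hv
      have := hσ v hv
      rw [abs_le] at this
      rw [hB, Finset.mem_Icc]
      constructor
      · have h1 : (-(σ v) : ℤ) ≤ ⌊s⌋ := by
          rw [Int.le_floor]
          push_cast
          linarith
        linarith
      · rw [Int.le_floor]
        exact this.2) (by
      intro z _
      have hfin2 : {v | P v ∧ σ v = z}.Finite := hfin.subset (fun v hv => hv.1)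
      have hfin3 : {Y : ℤ | ∃ v, (P v ∧ σ v = z) ∧ YY h h' d d' v = Y}.Finite := by
        apply (hfin2.image (YY h h' d d')).subset
        rintro Y ⟨v, hv, rfl⟩
        exact ⟨v, hv, rfl⟩
      have k1 := Kit.card_fib_le' (P := fun v => P v ∧ σ v = z)
        (Q := fun Y : ℤ => ∃ v, (P v ∧ σ v = z) ∧ YY h h' d d' v = Y) hfin2 hfin3
        (YY h h' d d') (1 + 2 * (N : ℝ) / (D : ℝ)) (fun v hv => ⟨v, hv, rfl⟩) (by
          intro Y _
          apply fibY N D h h' d d' hD hd hdp hd'p hne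
            (fun v => (P v ∧ σ v = z) ∧ YY h h' d d' v = Y)
            (hfin2.subset (fun v hv => hv.1)) (fun v hv => hP v hv.1.1) Y (fun v hv => hv.2))
      refine k1.trans ?_
      apply mul_le_mul_of_nonneg_right _ (by positivity)
      apply Kit.card_dvd_spaced hfin3 M L hM hL
      · rintro x y ⟨v, hv, rfl⟩ ⟨w, hw, rfl⟩
        exact hdv v w hv.1 hw.1 (hv.2.trans hw.2.symm)
      · rintro x y ⟨v, hv, rfl⟩ ⟨w, hw, rfl⟩
        exact hdL v w hv.1 hw.1 (hv.2.trans hw.2.symm))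
  exact key.trans (mul_le_mul_of_nonneg_right hBc hm)

theorem zzc (sig : SigStmt) : ZzcStmt := by
  obtain ⟨Cs, hCs, hsig⟩ := sig
  refine ⟨(2 * Cs + 1) * (16000 * 3), by positivity, ?_⟩
  intro N D K u H g t b S hPar hg hgH hHN h h' d d' h1 hH1 hh' hH' hgcd hd hd' hne
  have hPar' := hPar
  obtain ⟨q1, q2, q3, -, -, -, q7, q8, q9, -, -, qS⟩ := hPar
  obtain ⟨d1, d2, d3, d4⟩ := qS d hd
  obtain ⟨e1, e2, e3, e4⟩ := qS d' hd'
  have hK : 1 ≤ K := by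
    rcases Nat.eq_zero_or_pos K with rfl | hK
    · simp at q7
      omega
    · exact hK
  have hN : 1 ≤ N := by
    have : 1 ≤ 4 * D * K := by
      have := Nat.mul_pos (by omega : 0 < 4 * D) hK
      omega
    omega
  have hDN : D ≤ N := by
    have : D * 1 ≤ 4 * D * K := by
      have := Nat.mul_le_mul (by omega : D ≤ 4 * D) hK
      exact this
    omega
  have hu : 0 < u := by omega
  have hK0 : (0 : ℝ) < K := by exact_mod_cast hK
  have hN0 : (0 : ℝ) < N := by exact_mod_cast hN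
  have hD0 : (0 : ℝ) < D := by
    have : 0 < D := by omega
    exact_mod_cast this
  have hu0 : (0 : ℝ) < u := by exact_mod_cast hu
  have hg0 : (0 : ℝ) < g := by exact_mod_cast hg
  have hH : 1 ≤ H := by omega
  have hH0 : (0 : ℝ) < H := by exact_mod_cast hH
  have hHN' : (H : ℝ) ≤ N := by exact_mod_cast hHN
  have hDN' : (D : ℝ) ≤ N := by exact_mod_cast hDN
  have h'pos : 1 ≤ h' := by omega
  have hh0 : (0 : ℝ) < h' := by exact_mod_cast h'pos
  have hd'0 : (0 : ℝ) < d' := by exact_mod_cast e3.pos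
  have hd0 : (0 : ℝ) < d := by exact_mod_cast d3.pos
  obtain ⟨β, hβ⟩ : ∃ β : ℝ, β = t - (b : ℝ) / (u : ℝ) := ⟨_, rfl⟩
  obtain ⟨W, hW⟩ : ∃ W : ℝ, W = WW N u t b := ⟨_, rfl⟩
  have hWdef : W = max (u : ℝ) (|β| * (u : ℝ) * (N : ℝ) ^ 5) := by
    rw [hW, hβ]
    rfl
  have hWu : (u : ℝ) ≤ W := by
    rw [hWdef]
    exact le_max_left _ _
  have hW0 : 0 < W := hu0.trans_le hWu
  obtain ⟨P, hPdef⟩ : ∃ P : ℤ × ℤ → Prop, P = fun v : ℤ × ℤ => |v.1| ≤ (N : ℤ) ∧ |v.2| ≤ (N : ℤ) ∧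
        Close2 K t ((h, d, v.1), (h', d', v.2)) := ⟨_, rfl⟩
  have hfin : {v | P v}.Finite := by
    apply (Finset.finite_toSet (Finset.Icc (-(N : ℤ)) N ×ˢ Finset.Icc (-(N : ℤ)) N)).subset
    intro v hv
    rw [hPdef] at hv
    have hv' : |v.1| ≤ (N : ℤ) ∧ |v.2| ≤ (N : ℤ) ∧
        Close2 K t ((h, d, v.1), (h', d', v.2)) := hv
    rw [Finset.mem_coe, Finset.mem_product, Finset.mem_Icc, Finset.mem_Icc]
    rw [abs_le, abs_le] at hv'
    exact ⟨hv'.1, hv'.2.1⟩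
  have hP1 : ∀ v, P v → |v.1| ≤ (N : ℤ) := by
    intro v hv
    rw [hPdef] at hv
    exact hv.1
  have hP2 : ∀ v, P v → |v.2| ≤ (N : ℤ) := by
    intro v hv
    rw [hPdef] at hv
    exact hv.2.1
  have key : ∀ v, P v → ∃ σ : ℤ, |(σ : ℝ)| ≤ Cs * W / (K : ℝ) ^ 3 ∧
      (u : ℤ) ∣ b * (10 * (h' : ℤ) * (d' : ℤ) ^ 3 * YY h h' d d' v) - (d : ℤ) * σ ∧
      |β * (10 * (h' : ℝ) * (d' : ℝ) ^ 3 * (YY h h' d d' v : ℝ)) + (d : ℝ) * (σ : ℝ) / (u : ℝ)| ≤
        32 * (D : ℝ) / (K : ℝ) ^ 3 := by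
    intro v hv
    have hv1 := hP1 v hv
    have hv2 := hP2 v hv
    have hcl : Close2 K t ((h, d, v.1), (h', d', v.2)) := by
      rw [hPdef] at hv
      exact hv.2.2
    have m1 : ((h, d, v.1) : ℕ × ℕ × ℤ) ∈ P2 N S := by
      unfold P2
      rw [Finset.mem_product, Finset.mem_product, Finset.mem_Icc, Finset.mem_Icc]
      rw [abs_le] at hv1
      exact ⟨⟨h1, by omega⟩, hd, hv1⟩
    have m2 : ((h', d', v.2) : ℕ × ℕ × ℤ) ∈ P2 N S := by
      unfold P2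
      rw [Finset.mem_product, Finset.mem_product, Finset.mem_Icc, Finset.mem_Icc]
      rw [abs_le] at hv2
      exact ⟨⟨h'pos, by omega⟩, hd', hv2⟩
    obtain ⟨⟨s1, s2⟩, ⟨σ, s3, s4, s5⟩, -⟩ := hsig N D K u t b S hPar' _ m1 _ m2 hcl
    rw [← hW] at s4
    rw [← hβ] at s2 s5
    have id := H98.y2 (h, d, v.1) (h', d', v.2)
    have id2 : (d : ℤ) * (m3 (h, d, v.1) - m3 (h', d', v.2)) -
        2 * Z2 (h, d, v.1) * (m4 (h, d, v.1) - m4 (h', d', v.2)) =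
        10 * (h' : ℤ) * (d' : ℤ) ^ 3 * YY h h' d d' v := id
    obtain ⟨Z, hZ⟩ : ∃ Z : ℤ, Z = Z2 (h, d, v.1) := ⟨_, rfl⟩
    obtain ⟨M3, hM3⟩ : ∃ M3 : ℤ, M3 = m3 (h, d, v.1) - m3 (h', d', v.2) := ⟨_, rfl⟩
    obtain ⟨M4, hM4⟩ : ∃ M4 : ℤ, M4 = m4 (h, d, v.1) - m4 (h', d', v.2) := ⟨_, rfl⟩
    rw [← hZ, ← hM3, ← hM4] at id2
    rw [← hM4] at s1
    rw [← hM3] at s3
    have s2' : |β * (M4 : ℝ)| ≤ 1 / (K : ℝ) ^ 4 := by
      have : (M4 : ℝ) = (m4 (h, d, v.1) : ℝ) - (m4 (h', d', v.2) : ℝ) := by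
        rw [hM4]
        push_cast
        ring
      rw [this]
      exact s2
    have s5' : |β * (M3 : ℝ) + (σ : ℝ) / (u : ℝ)| ≤ 1 / (K : ℝ) ^ 3 := by
      have : (M3 : ℝ) = (m3 (h, d, v.1) : ℝ) - (m3 (h', d', v.2) : ℝ) := by
        rw [hM3]
        push_cast
        ring
      rw [this]
      exact s5
    have hZN : |(Z : ℝ)| ≤ 3 * N := by
      have : |Z| ≤ 3 * (N : ℤ) := by
        have hz : Z = 2 * v.1 + (h : ℤ) := hZ
        rw [abs_le] at hv1 ⊢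
        have hhN : (h : ℤ) ≤ N := by
          have : h ≤ N := by omega
          exact_mod_cast this
        have hh1 : (0 : ℤ) ≤ h := Int.natCast_nonneg h
        constructor <;> linarith [hv1.1, hv1.2]
      exact_mod_cast this
    refine ⟨σ, s4, ?_, ?_⟩
    · rw [← id2]
      have : b * ((d : ℤ) * M3 - 2 * Z * M4) - (d : ℤ) * σ =
          (d : ℤ) * (b * M3 - σ) - M4 * (2 * Z * b) := by ring
      rw [this]
      exact (s3.mul_left _).sub (s1.mul_right _)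
    · have id3 : 10 * (h' : ℝ) * (d' : ℝ) ^ 3 * (YY h h' d d' v : ℝ) =
          (d : ℝ) * (M3 : ℝ) - 2 * (Z : ℝ) * (M4 : ℝ) := by exact_mod_cast id2.symm
      rw [id3]
      have e : β * ((d : ℝ) * (M3 : ℝ) - 2 * (Z : ℝ) * (M4 : ℝ)) + (d : ℝ) * (σ : ℝ) / (u : ℝ) =
          (d : ℝ) * (β * (M3 : ℝ) + (σ : ℝ) / (u : ℝ)) - 2 * (Z : ℝ) * (β * (M4 : ℝ)) := by ring
      rw [e]
      have a1 : |(d : ℝ) * (β * (M3 : ℝ) + (σ : ℝ) / (u : ℝ))| ≤ 2 * D * (1 / (K : ℝ) ^ 3) := by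
        rw [abs_mul, abs_of_pos hd0]
        apply mul_le_mul _ s5' (abs_nonneg _) (by positivity)
        exact_mod_cast d2
      have a2 : |2 * (Z : ℝ) * (β * (M4 : ℝ))| ≤ (2 * (3 * N)) * (1 / (K : ℝ) ^ 4) := by
        rw [abs_mul, abs_mul]
        apply mul_le_mul _ s2' (abs_nonneg _) (by positivity)
        have : |(2 : ℝ)| = 2 := by norm_num
        rw [this]
        linarith
      have a3 : (2 * (3 * (N : ℝ))) * (1 / (K : ℝ) ^ 4) ≤ 30 * D / (K : ℝ) ^ 3 := by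
        have q2' : (N : ℝ) ≤ 5 * D * K := by exact_mod_cast q2
        have : 30 * (D : ℝ) / (K : ℝ) ^ 3 = (6 * (5 * D * K)) * (1 / (K : ℝ) ^ 4) := by
          field_simp
          norm_num
        rw [this]
        apply mul_le_mul_of_nonneg_right _ (by positivity)
        linarith
      calc |(d : ℝ) * (β * (M3 : ℝ) + (σ : ℝ) / (u : ℝ)) - 2 * (Z : ℝ) * (β * (M4 : ℝ))|
          ≤ |(d : ℝ) * (β * (M3 : ℝ) + (σ : ℝ) / (u : ℝ))| + |2 * (Z : ℝ) * (β * (M4 : ℝ))| :=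
            abs_sub _ _
        _ ≤ 2 * D * (1 / (K : ℝ) ^ 3) + 30 * D / (K : ℝ) ^ 3 := add_le_add a1 (a2.trans a3)
        _ = 32 * (D : ℝ) / (K : ℝ) ^ 3 := by ring
  choose! σ hσ using key
  have hcb : IsCoprime (u : ℤ) b := by
    rw [Int.isCoprime_iff_gcd_eq_one, Int.gcd_comm]
    exact q9
  have hcd : IsCoprime (u : ℤ) (d' : ℤ) := by
    rw [Nat.isCoprime_iff_coprime]
    exact ((Nat.Prime.coprime_iff_not_dvd e3).2 e4).symm
  have hcdb : IsCoprime (u : ℤ) (b * (d' : ℤ) ^ 3) := hcb.mul_right (hcd.pow_right)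
  obtain ⟨A, hA⟩ : ∃ A : ℕ, A = 10 * h' := ⟨_, rfl⟩
  obtain ⟨M, hM⟩ : ∃ M : ℕ, M = u / Nat.gcd u A := ⟨_, rfl⟩
  have hgA : Nat.gcd u A ≤ 10 * g := by
    apply Nat.le_of_dvd (by omega)
    rw [hA, ← hgcd, Nat.gcd_comm h' u]
    exact Nat.gcd_mul_right_dvd_mul_gcd u 10 h' |>.trans (by
      exact Nat.mul_dvd_mul_right (Nat.gcd_dvd_right u 10) _)
  have hgpos : 0 < Nat.gcd u A := Nat.gcd_pos_of_pos_left _ hu
  have hM1 : 1 ≤ M := by
    rw [hM]
    exact Nat.div_pos (Nat.le_of_dvd hu (Nat.gcd_dvd_left u A)) hgpos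
  have hMu : 1 / (M : ℝ) ≤ 10 * g / (u : ℝ) := by
    have hM2 : M * Nat.gcd u A = u := by
      rw [hM]
      exact Nat.div_mul_cancel (Nat.gcd_dvd_left u A)
    have hM3 : (M : ℝ) * (Nat.gcd u A : ℝ) = u := by exact_mod_cast hM2
    have hM0 : (0 : ℝ) < M := by exact_mod_cast hM1
    rw [div_le_div_iff₀ hM0 hu0, one_mul, ← hM3, mul_comm (M : ℝ)]
    apply mul_le_mul_of_nonneg_right _ hM0.le
    exact_mod_cast hgA
  have hdv : ∀ v w, P v → P w → σ v = σ w → (M : ℤ) ∣ YY h h' d d' v - YY h h' d d' w := by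
    intro v w hv hw hvw
    have a1 := (hσ v hv).2.1
    have a2 := (hσ w hw).2.1
    rw [← hvw] at a2
    have a3 := a1.sub a2
    have e : b * (10 * (h' : ℤ) * (d' : ℤ) ^ 3 * YY h h' d d' v) - (d : ℤ) * σ v -
        (b * (10 * (h' : ℤ) * (d' : ℤ) ^ 3 * YY h h' d d' w) - (d : ℤ) * σ v) =
        (b * (d' : ℤ) ^ 3) * ((A : ℤ) * (YY h h' d d' v - YY h h' d d' w)) := by
      rw [hA]
      push_cast
      ring
    rw [e] at a3
    have a4 := hcdb.dvd_of_dvd_mul_left a3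
    rw [hM]
    exact dvd_reduce u A hu _ a4
  have hL2 : ∀ v w, P v → P w → σ v = σ w →
      |β| * (10 * (h' : ℝ) * (d' : ℝ) ^ 3) * |(YY h h' d d' v : ℝ) - (YY h h' d d' w : ℝ)| ≤
      64 * (D : ℝ) / (K : ℝ) ^ 3 := by
    intro v w hv hw hvw
    have a1 := (hσ v hv).2.2
    have a2 := (hσ w hw).2.2
    rw [← hvw] at a2
    have e : |β| * (10 * (h' : ℝ) * (d' : ℝ) ^ 3) *
        |(YY h h' d d' v : ℝ) - (YY h h' d d' w : ℝ)| =
        |(β * (10 * (h' : ℝ) * (d' : ℝ) ^ 3 * (YY h h' d d' v : ℝ)) +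
          (d : ℝ) * (σ v : ℝ) / (u : ℝ)) -
        (β * (10 * (h' : ℝ) * (d' : ℝ) ^ 3 * (YY h h' d d' w : ℝ)) +
          (d : ℝ) * (σ v : ℝ) / (u : ℝ))| := by
      have e2 : (β * (10 * (h' : ℝ) * (d' : ℝ) ^ 3 * (YY h h' d d' v : ℝ)) +
          (d : ℝ) * (σ v : ℝ) / (u : ℝ)) -
        (β * (10 * (h' : ℝ) * (d' : ℝ) ^ 3 * (YY h h' d d' w : ℝ)) +
          (d : ℝ) * (σ v : ℝ) / (u : ℝ)) =
          β * (10 * (h' : ℝ) * (d' : ℝ) ^ 3) *
            ((YY h h' d d' v : ℝ) - (YY h h' d d' w : ℝ)) := by ring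
      have e3' : |10 * (h' : ℝ) * (d' : ℝ) ^ 3| = 10 * (h' : ℝ) * (d' : ℝ) ^ 3 :=
        abs_of_pos (by positivity)
      rw [e2, abs_mul, abs_mul, e3']
    rw [e]
    refine (abs_sub _ _).trans ?_
    refine (add_le_add a1 a2).trans (le_of_eq ?_)
    ring
  have hL1 : ∀ v, P v → |(YY h h' d d' v : ℝ)| ≤ 12 * (D : ℝ) * N := by
    intro v hv
    have hv1 := hP1 v hv
    have hv2 := hP2 v hv
    have z1 : |2 * v.1 + (h : ℤ)| ≤ 3 * (N : ℤ) := by
      rw [abs_le] at hv1 ⊢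
      have hhN : (h : ℤ) ≤ N := by
        have : h ≤ N := by omega
        exact_mod_cast this
      have hh1 : (0 : ℤ) ≤ h := Int.natCast_nonneg h
      constructor <;> linarith [hv1.1, hv1.2]
    have z2 : |2 * v.2 + (h' : ℤ)| ≤ 3 * (N : ℤ) := by
      rw [abs_le] at hv2 ⊢
      have hhN : (h' : ℤ) ≤ N := by
        have : h' ≤ N := by omega
        exact_mod_cast this
      have hh1 : (0 : ℤ) ≤ h' := Int.natCast_nonneg h'
      constructor <;> linarith [hv2.1, hv2.2]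
    have z3 : |YY h h' d d' v| ≤ 12 * (D : ℤ) * N := by
      unfold YY
      refine (abs_sub _ _).trans ?_
      rw [abs_mul, abs_mul, Nat.abs_cast, Nat.abs_cast]
      have y1 : (d' : ℤ) * |2 * v.1 + (h : ℤ)| ≤ (2 * D) * (3 * N) := by
        apply mul_le_mul _ z1 (abs_nonneg _) (by positivity)
        exact_mod_cast e2
      have y2 : (d : ℤ) * |2 * v.2 + (h' : ℤ)| ≤ (2 * D) * (3 * N) := by
        apply mul_le_mul _ z2 (abs_nonneg _) (by positivity)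
        exact_mod_cast d2
      linarith
    exact_mod_cast z3
  obtain ⟨lam, hlam⟩ : ∃ lam : ℝ, lam = (g : ℝ) * (N : ℝ) / (H : ℝ) := ⟨_, rfl⟩
  have hlam0 : 0 < lam := by
    rw [hlam]
    positivity
  have hglam : (g : ℝ) ≤ lam := by
    rw [hlam, le_div_iff₀ hH0]
    exact mul_le_mul_of_nonneg_left hHN' hg0.le
  -- the choice of `L`
  have hex : ∃ L : ℝ, 0 ≤ L ∧ L / (M : ℝ) ≤ 16000 * (lam * D * N / W) ∧
      ∀ v w, P v → P w → σ v = σ w → |(YY h h' d d' v : ℝ) - (YY h h' d d' w : ℝ)| ≤ L := by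
    by_cases hcase : |β| * (u : ℝ) * (N : ℝ) ^ 5 ≤ u
    · refine ⟨24 * (D : ℝ) * N, by positivity, ?_, ?_⟩
      · have hWe : W = u := by
          rw [hWdef]
          exact max_eq_left hcase
        rw [hWe]
        calc 24 * (D : ℝ) * N / (M : ℝ) = 24 * (D : ℝ) * N * (1 / (M : ℝ)) := by ring
          _ ≤ 24 * (D : ℝ) * N * (10 * g / (u : ℝ)) :=
              mul_le_mul_of_nonneg_left hMu (by positivity)
          _ = 240 * (g * D * N / u) := by ring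
          _ ≤ 16000 * (lam * D * N / u) := by
              apply mul_le_mul (by norm_num) _ (by positivity) (by norm_num)
              apply div_le_div_of_nonneg_right _ hu0.le
              apply mul_le_mul_of_nonneg_right _ hN0.le
              exact mul_le_mul_of_nonneg_right hglam hD0.le
      · intro v w hv hw _
        refine (abs_sub _ _).trans ?_
        linarith [hL1 v hv, hL1 w hw]
    · push Not at hcase
      have hβ0 : 0 < |β| := by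
        rcases (abs_nonneg β).eq_or_lt with hb0 | hb0
        · rw [← hb0] at hcase
          simp at hcase
          linarith
        · exact hb0
      have hWe : W = |β| * (u : ℝ) * (N : ℝ) ^ 5 := by
        rw [hWdef]
        exact max_eq_right hcase.le
      obtain ⟨T, hT⟩ : ∃ T : ℝ, T = |β| * (10 * (h' : ℝ) * (d' : ℝ) ^ 3) := ⟨_, rfl⟩
      have hT0 : 0 < T := by
        rw [hT]
        positivity
      have hTl : |β| * (5 * (H : ℝ) * (D : ℝ) ^ 3) ≤ T := by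
        rw [hT]
        apply mul_le_mul_of_nonneg_left _ hβ0.le
        have b1 : 5 * (H : ℝ) ≤ 10 * (h' : ℝ) := by
          have : (H : ℝ) < 2 * h' := by exact_mod_cast hh'
          linarith
        have b2 : (D : ℝ) ^ 3 ≤ (d' : ℝ) ^ 3 := by
          apply pow_le_pow_left₀ hD0.le
          exact_mod_cast e1.le
        exact mul_le_mul b1 b2 (by positivity) (by positivity)
      refine ⟨64 * (D : ℝ) / (K : ℝ) ^ 3 / T, by positivity, ?_, ?_⟩
      · have hq2 : (N : ℝ) ^ 3 ≤ 125 * (D : ℝ) ^ 3 * (K : ℝ) ^ 3 := by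
          have q2' : (N : ℝ) ≤ 5 * D * K := by exact_mod_cast q2
          calc (N : ℝ) ^ 3 ≤ (5 * D * K) ^ 3 := pow_le_pow_left₀ hN0.le q2' 3
            _ = _ := by ring
        have b1 : 64 * (D : ℝ) / (K : ℝ) ^ 3 / T ≤
            64 * (D : ℝ) / (K : ℝ) ^ 3 / (|β| * (5 * (H : ℝ) * (D : ℝ) ^ 3)) :=
          div_le_div_of_nonneg_left (by positivity) (by positivity) hTl
        calc 64 * (D : ℝ) / (K : ℝ) ^ 3 / T / (M : ℝ)
            = 64 * (D : ℝ) / (K : ℝ) ^ 3 / T * (1 / (M : ℝ)) := by ring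
          _ ≤ 64 * (D : ℝ) / (K : ℝ) ^ 3 / (|β| * (5 * (H : ℝ) * (D : ℝ) ^ 3)) *
              (10 * g / (u : ℝ)) := mul_le_mul b1 hMu (by positivity) (by positivity)
          _ = 128 * g / (|β| * (u : ℝ) * H * (D : ℝ) ^ 2) * (1 / (K : ℝ) ^ 3) := by
              field_simp
              norm_num
          _ ≤ 128 * g / (|β| * (u : ℝ) * H * (D : ℝ) ^ 2) * (125 * (D : ℝ) ^ 3 / (N : ℝ) ^ 3) := by
              apply mul_le_mul_of_nonneg_left _ (by positivity)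
              rw [div_le_div_iff₀ (by positivity) (by positivity), one_mul]
              exact hq2
          _ = 16000 * (lam * D * N / W) := by
              rw [hWe, hlam]
              field_simp
              norm_num
      · intro v w hv hw hvw
        rw [le_div_iff₀ hT0, mul_comm]
        have := hL2 v w hv hw hvw
        rw [← hT] at this
        exact this
  obtain ⟨L, hL0, hLM, hLd⟩ := hex
  have hs0 : 0 ≤ Cs * W / (K : ℝ) ^ 3 := by positivity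
  have hmain := countZ N D h h' d d' M q3 d1 d3 e3 hne P hfin hP1 σ (Cs * W / (K : ℝ) ^ 3) L hs0 hL0
    hM1 (fun v hv => (hσ v hv).1) hdv hLd
  have hgoal : (Nat.card {v : ℤ × ℤ // |v.1| ≤ (N : ℤ) ∧ |v.2| ≤ (N : ℤ) ∧
        Close2 K t ((h, d, v.1), (h', d', v.2))} : ℝ) = (Nat.card {v : ℤ × ℤ // P v} : ℝ) := by
    rw [hPdef]
  rw [hgoal, ← hW, ← hlam]
  refine hmain.trans ?_
  have c1 : 2 * (Cs * W / (K : ℝ) ^ 3) + 1 ≤ (2 * Cs + 1) * (1 + W / (K : ℝ) ^ 3) := by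
    have : 0 ≤ W / (K : ℝ) ^ 3 := by positivity
    have e : Cs * W / (K : ℝ) ^ 3 = Cs * (W / (K : ℝ) ^ 3) := by ring
    rw [e]
    nlinarith
  have c2 : 1 + L / (M : ℝ) ≤ 16000 * (1 + lam * D * N / W) := by
    linarith
  have c3 : 1 + 2 * (N : ℝ) / (D : ℝ) ≤ 3 * ((N : ℝ) / (D : ℝ)) := by
    have : 1 ≤ (N : ℝ) / (D : ℝ) := by
      rw [le_div_iff₀ hD0]
      linarith
    have e : 2 * (N : ℝ) / (D : ℝ) = 2 * ((N : ℝ) / (D : ℝ)) := by ring
    rw [e]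
    linarith
  have hLM0 : 0 ≤ L / (M : ℝ) := by positivity
  calc (2 * (Cs * W / (K : ℝ) ^ 3) + 1) * ((1 + L / (M : ℝ)) * (1 + 2 * (N : ℝ) / (D : ℝ)))
      ≤ ((2 * Cs + 1) * (1 + W / (K : ℝ) ^ 3)) *
        ((16000 * (1 + lam * D * N / W)) * (3 * ((N : ℝ) / (D : ℝ)))) := by
        apply mul_le_mul c1 _ (by positivity) (by positivity)
        exact mul_le_mul c2 c3 (by positivity) (by positivity)
    _ = _ := by ring

end Pool.Agent.VM5.H20
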