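import Pool.Agent.VM5.StmtsB
import Pool.Agent.Helper20_VM5.Zzc

set_option autoImplicit false

/-! The number of `(r, r')` for given `(h, h', d, d')`, under `Par2w`. -/

namespace Pool.Agent.VM5.H20

open Finset
open Pool.Agent.VM (Nr)

theorem zzw (sgw : SgwStmt) : ZzwStmt := by
  obtain ⟨Cs, hCs, hsig⟩ := sgw
  refine ⟨(2 * Cs + 1) * (16000 * 3), by positivity, ?_⟩
  intro N D K u H g t b S hPar hg hgH hHN h h' d d' h1 hH1 hh' hH' hgcd hd hd' hne
  have hPar' := hPar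
  obtain ⟨q1, q2, q3, -, -, -, q7, q8, q9, -, -, -, qS⟩ := hPar
  obtain ⟨d1, d2, d3, d4⟩ := qS d hd
  obtain ⟨e1, e2, e3, e4⟩ := qS d' hd'
  have hK : 1 ≤ K := by
    rcases Nat.eq_zero_or_pos K with rfl | hK
    · simp at q7
      omega
    · exact hK
  have hN : 1 ≤ N := by
    have : 1 ≤ 4 * D * K := by
      have := Nat.mul_pos (by omega : 0 < 4 * D) hK
      omega
    omega
  have hDN : D ≤ N := by
    have : D * 1 ≤ 4 * D * K := by
      have := Nat.mul_le_mul (by omega : D ≤ 4 * D) hK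
      exact this
    omega
  have hu : 0 < u := by omega
  have hK0 : (0 : ℝ) < K := by exact_mod_cast hK
  have hN0 : (0 : ℝ) < N := by exact_mod_cast hN
  have hD0 : (0 : ℝ) < D := by
    have : 0 < D := by omega
    exact_mod_cast this
  have hu0 : (0 : ℝ) < u := by exact_mod_cast hu
  have hg0 : (0 : ℝ) < g := by exact_mod_cast hg
  have hH : 1 ≤ H := by omega
  have hH0 : (0 : ℝ) < H := by exact_mod_cast hH
  have hHN' : (H : ℝ) ≤ N := by exact_mod_cast hHN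
  have hDN' : (D : ℝ) ≤ N := by exact_mod_cast hDN
  have h'pos : 1 ≤ h' := by omega
  have hh0 : (0 : ℝ) < h' := by exact_mod_cast h'pos
  have hd'0 : (0 : ℝ) < d' := by exact_mod_cast e3.pos
  have hd0 : (0 : ℝ) < d := by exact_mod_cast d3.pos
  obtain ⟨β, hβ⟩ : ∃ β : ℝ, β = t - (b : ℝ) / (u : ℝ) := ⟨_, rfl⟩
  obtain ⟨W, hW⟩ : ∃ W : ℝ, W = WW N u t b := ⟨_, rfl⟩
  have hWdef : W = max (u : ℝ) (|β| * (u : ℝ) * (N : ℝ) ^ 5) := by
    rw [hW, hβ]
    rfl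
  have hWu : (u : ℝ) ≤ W := by
    rw [hWdef]
    exact le_max_left _ _
  have hW0 : 0 < W := hu0.trans_le hWu
  obtain ⟨P, hPdef⟩ : ∃ P : ℤ × ℤ → Prop, P = fun v : ℤ × ℤ => |v.1| ≤ (N : ℤ) ∧ |v.2| ≤ (N : ℤ) ∧
        Close2 K t ((h, d, v.1), (h', d', v.2)) := ⟨_, rfl⟩
  have hfin : {v | P v}.Finite := by
    apply (Finset.finite_toSet (Finset.Icc (-(N : ℤ)) N ×ˢ Finset.Icc (-(N : ℤ)) N)).subset
    intro v hv
    rw [hPdef] at hv
    have hv' : |v.1| ≤ (N : ℤ) ∧ |v.2| ≤ (N : ℤ) ∧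
        Close2 K t ((h, d, v.1), (h', d', v.2)) := hv
    rw [Finset.mem_coe, Finset.mem_product, Finset.mem_Icc, Finset.mem_Icc]
    rw [abs_le, abs_le] at hv'
    exact ⟨hv'.1, hv'.2.1⟩
  have hP1 : ∀ v, P v → |v.1| ≤ (N : ℤ) := by
    intro v hv
    rw [hPdef] at hv
    exact hv.1
  have hP2 : ∀ v, P v → |v.2| ≤ (N : ℤ) := by
    intro v hv
    rw [hPdef] at hv
    exact hv.2.1
  have key : ∀ v, P v → ∃ σ : ℤ, |(σ : ℝ)| ≤ Cs * W / (K : ℝ) ^ 3 ∧
      (u : ℤ) ∣ b * (10 * (h' : ℤ) * (d' : ℤ) ^ 3 * YY h h' d d' v) - (d : ℤ) * σ ∧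
      |β * (10 * (h' : ℝ) * (d' : ℝ) ^ 3 * (YY h h' d d' v : ℝ)) + (d : ℝ) * (σ : ℝ) / (u : ℝ)| ≤
        32 * (D : ℝ) / (K : ℝ) ^ 3 := by
    intro v hv
    have hv1 := hP1 v hv
    have hv2 := hP2 v hv
    have hcl : Close2 K t ((h, d, v.1), (h', d', v.2)) := by
      rw [hPdef] at hv
      exact hv.2.2
    have m1 : ((h, d, v.1) : ℕ × ℕ × ℤ) ∈ P2 N S := by
      unfold P2
      rw [Finset.mem_product, Finset.mem_product, Finset.mem_Icc, Finset.mem_Icc]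
      rw [abs_le] at hv1
      exact ⟨⟨h1, by omega⟩, hd, hv1⟩
    have m2 : ((h', d', v.2) : ℕ × ℕ × ℤ) ∈ P2 N S := by
      unfold P2
      rw [Finset.mem_product, Finset.mem_product, Finset.mem_Icc, Finset.mem_Icc]
      rw [abs_le] at hv2
      exact ⟨⟨h'pos, by omega⟩, hd', hv2⟩
    obtain ⟨⟨s1, s2⟩, ⟨σ, s3, s4, s5⟩, -⟩ := hsig N D K u t b S hPar' _ m1 _ m2 hcl
    rw [← hW] at s4
    rw [← hβ] at s2 s5
    have id := H98.y2 (h, d, v.1) (h', d', v.2)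
    have id2 : (d : ℤ) * (m3 (h, d, v.1) - m3 (h', d', v.2)) -
        2 * Z2 (h, d, v.1) * (m4 (h, d, v.1) - m4 (h', d', v.2)) =
        10 * (h' : ℤ) * (d' : ℤ) ^ 3 * YY h h' d d' v := id
    obtain ⟨Z, hZ⟩ : ∃ Z : ℤ, Z = Z2 (h, d, v.1) := ⟨_, rfl⟩
    obtain ⟨M3, hM3⟩ : ∃ M3 : ℤ, M3 = m3 (h, d, v.1) - m3 (h', d', v.2) := ⟨_, rfl⟩
    obtain ⟨M4, hM4⟩ : ∃ M4 : ℤ, M4 = m4 (h, d, v.1) - m4 (h', d', v.2) := ⟨_, rfl⟩
    rw [← hZ, ← hM3, ← hM4] at id2
    rw [← hM4] at s1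
    rw [← hM3] at s3
    have s2' : |β * (M4 : ℝ)| ≤ 1 / (K : ℝ) ^ 4 := by
      have : (M4 : ℝ) = (m4 (h, d, v.1) : ℝ) - (m4 (h', d', v.2) : ℝ) := by
        rw [hM4]
        push_cast
        ring
      rw [this]
      exact s2
    have s5' : |β * (M3 : ℝ) + (σ : ℝ) / (u : ℝ)| ≤ 1 / (K : ℝ) ^ 3 := by
      have : (M3 : ℝ) = (m3 (h, d, v.1) : ℝ) - (m3 (h', d', v.2) : ℝ) := by
        rw [hM3]
        push_cast
        ring
      rw [this]
      exact s5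
    have hZN : |(Z : ℝ)| ≤ 3 * N := by
      have : |Z| ≤ 3 * (N : ℤ) := by
        have hz : Z = 2 * v.1 + (h : ℤ) := hZ
        rw [abs_le] at hv1 ⊢
        have hhN : (h : ℤ) ≤ N := by
          have : h ≤ N := by omega
          exact_mod_cast this
        have hh1 : (0 : ℤ) ≤ h := Int.natCast_nonneg h
        constructor <;> linarith [hv1.1, hv1.2]
      exact_mod_cast this
    refine ⟨σ, s4, ?_, ?_⟩
    · rw [← id2]
      have : b * ((d : ℤ) * M3 - 2 * Z * M4) - (d : ℤ) * σ =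
          (d : ℤ) * (b * M3 - σ) - M4 * (2 * Z * b) := by ring
      rw [this]
      exact (s3.mul_left _).sub (s1.mul_right _)
    · have id3 : 10 * (h' : ℝ) * (d' : ℝ) ^ 3 * (YY h h' d d' v : ℝ) =
          (d : ℝ) * (M3 : ℝ) - 2 * (Z : ℝ) * (M4 : ℝ) := by exact_mod_cast id2.symm
      rw [id3]
      have e : β * ((d : ℝ) * (M3 : ℝ) - 2 * (Z : ℝ) * (M4 : ℝ)) + (d : ℝ) * (σ : ℝ) / (u : ℝ) =
          (d : ℝ) * (β * (M3 : ℝ) + (σ : ℝ) / (u : ℝ)) - 2 * (Z : ℝ) * (β * (M4 : ℝ)) := by ring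
      rw [e]
      have a1 : |(d : ℝ) * (β * (M3 : ℝ) + (σ : ℝ) / (u : ℝ))| ≤ 2 * D * (1 / (K : ℝ) ^ 3) := by
        rw [abs_mul, abs_of_pos hd0]
        apply mul_le_mul _ s5' (abs_nonneg _) (by positivity)
        exact_mod_cast d2
      have a2 : |2 * (Z : ℝ) * (β * (M4 : ℝ))| ≤ (2 * (3 * N)) * (1 / (K : ℝ) ^ 4) := by
        rw [abs_mul, abs_mul]
        apply mul_le_mul _ s2' (abs_nonneg _) (by positivity)
        have : |(2 : ℝ)| = 2 := by norm_num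
        rw [this]
        linarith
      have a3 : (2 * (3 * (N : ℝ))) * (1 / (K : ℝ) ^ 4) ≤ 30 * D / (K : ℝ) ^ 3 := by
        have q2' : (N : ℝ) ≤ 5 * D * K := by exact_mod_cast q2
        have : 30 * (D : ℝ) / (K : ℝ) ^ 3 = (6 * (5 * D * K)) * (1 / (K : ℝ) ^ 4) := by
          field_simp
          norm_num
        rw [this]
        apply mul_le_mul_of_nonneg_right _ (by positivity)
        linarith
      calc |(d : ℝ) * (β * (M3 : ℝ) + (σ : ℝ) / (u : ℝ)) - 2 * (Z : ℝ) * (β * (M4 : ℝ))|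
          ≤ |(d : ℝ) * (β * (M3 : ℝ) + (σ : ℝ) / (u : ℝ))| + |2 * (Z : ℝ) * (β * (M4 : ℝ))| :=
            abs_sub _ _
        _ ≤ 2 * D * (1 / (K : ℝ) ^ 3) + 30 * D / (K : ℝ) ^ 3 := add_le_add a1 (a2.trans a3)
        _ = 32 * (D : ℝ) / (K : ℝ) ^ 3 := by ring
  choose! σ hσ using key
  have hcb : IsCoprime (u : ℤ) b := by
    rw [Int.isCoprime_iff_gcd_eq_one, Int.gcd_comm]
    exact q9
  have hcd : IsCoprime (u : ℤ) (d' : ℤ) := by
    rw [Nat.isCoprime_iff_coprime]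
    exact ((Nat.Prime.coprime_iff_not_dvd e3).2 e4).symm
  have hcdb : IsCoprime (u : ℤ) (b * (d' : ℤ) ^ 3) := hcb.mul_right (hcd.pow_right)
  obtain ⟨A, hA⟩ : ∃ A : ℕ, A = 10 * h' := ⟨_, rfl⟩
  obtain ⟨M, hM⟩ : ∃ M : ℕ, M = u / Nat.gcd u A := ⟨_, rfl⟩
  have hgA : Nat.gcd u A ≤ 10 * g := by
    apply Nat.le_of_dvd (by omega)
    rw [hA, ← hgcd, Nat.gcd_comm h' u]
    exact Nat.gcd_mul_right_dvd_mul_gcd u 10 h' |>.trans (by
      exact Nat.mul_dvd_mul_right (Nat.gcd_dvd_right u 10) _)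
  have hgpos : 0 < Nat.gcd u A := Nat.gcd_pos_of_pos_left _ hu
  have hM1 : 1 ≤ M := by
    rw [hM]
    exact Nat.div_pos (Nat.le_of_dvd hu (Nat.gcd_dvd_left u A)) hgpos
  have hMu : 1 / (M : ℝ) ≤ 10 * g / (u : ℝ) := by
    have hM2 : M * Nat.gcd u A = u := by
      rw [hM]
      exact Nat.div_mul_cancel (Nat.gcd_dvd_left u A)
    have hM3 : (M : ℝ) * (Nat.gcd u A : ℝ) = u := by exact_mod_cast hM2
    have hM0 : (0 : ℝ) < M := by exact_mod_cast hM1
    rw [div_le_div_iff₀ hM0 hu0, one_mul, ← hM3, mul_comm (M : ℝ)]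
    apply mul_le_mul_of_nonneg_right _ hM0.le
    exact_mod_cast hgA
  have hdv : ∀ v w, P v → P w → σ v = σ w → (M : ℤ) ∣ YY h h' d d' v - YY h h' d d' w := by
    intro v w hv hw hvw
    have a1 := (hσ v hv).2.1
    have a2 := (hσ w hw).2.1
    rw [← hvw] at a2
    have a3 := a1.sub a2
    have e : b * (10 * (h' : ℤ) * (d' : ℤ) ^ 3 * YY h h' d d' v) - (d : ℤ) * σ v -
        (b * (10 * (h' : ℤ) * (d' : ℤ) ^ 3 * YY h h' d d' w) - (d : ℤ) * σ v) =
        (b * (d' : ℤ) ^ 3) * ((A : ℤ) * (YY h h' d d' v - YY h h' d d' w)) := by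
      rw [hA]
      push_cast
      ring
    rw [e] at a3
    have a4 := hcdb.dvd_of_dvd_mul_left a3
    rw [hM]
    exact dvd_reduce u A hu _ a4
  have hL2 : ∀ v w, P v → P w → σ v = σ w →
      |β| * (10 * (h' : ℝ) * (d' : ℝ) ^ 3) * |(YY h h' d d' v : ℝ) - (YY h h' d d' w : ℝ)| ≤
      64 * (D : ℝ) / (K : ℝ) ^ 3 := by
    intro v w hv hw hvw
    have a1 := (hσ v hv).2.2
    have a2 := (hσ w hw).2.2
    rw [← hvw] at a2
    have e : |β| * (10 * (h' : ℝ) * (d' : ℝ) ^ 3) *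
        |(YY h h' d d' v : ℝ) - (YY h h' d d' w : ℝ)| =
        |(β * (10 * (h' : ℝ) * (d' : ℝ) ^ 3 * (YY h h' d d' v : ℝ)) +
          (d : ℝ) * (σ v : ℝ) / (u : ℝ)) -
        (β * (10 * (h' : ℝ) * (d' : ℝ) ^ 3 * (YY h h' d d' w : ℝ)) +
          (d : ℝ) * (σ v : ℝ) / (u : ℝ))| := by
      have e2 : (β * (10 * (h' : ℝ) * (d' : ℝ) ^ 3 * (YY h h' d d' v : ℝ)) +
          (d : ℝ) * (σ v : ℝ) / (u : ℝ)) -
        (β * (10 * (h' : ℝ) * (d' : ℝ) ^ 3 * (YY h h' d d' w : ℝ)) +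
          (d : ℝ) * (σ v : ℝ) / (u : ℝ)) =
          β * (10 * (h' : ℝ) * (d' : ℝ) ^ 3) *
            ((YY h h' d d' v : ℝ) - (YY h h' d d' w : ℝ)) := by ring
      have e3' : |10 * (h' : ℝ) * (d' : ℝ) ^ 3| = 10 * (h' : ℝ) * (d' : ℝ) ^ 3 :=
        abs_of_pos (by positivity)
      rw [e2, abs_mul, abs_mul, e3']
    rw [e]
    refine (abs_sub _ _).trans ?_
    refine (add_le_add a1 a2).trans (le_of_eq ?_)
    ring
  have hL1 : ∀ v, P v → |(YY h h' d d' v : ℝ)| ≤ 12 * (D : ℝ) * N := by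
    intro v hv
    have hv1 := hP1 v hv
    have hv2 := hP2 v hv
    have z1 : |2 * v.1 + (h : ℤ)| ≤ 3 * (N : ℤ) := by
      rw [abs_le] at hv1 ⊢
      have hhN : (h : ℤ) ≤ N := by
        have : h ≤ N := by omega
        exact_mod_cast this
      have hh1 : (0 : ℤ) ≤ h := Int.natCast_nonneg h
      constructor <;> linarith [hv1.1, hv1.2]
    have z2 : |2 * v.2 + (h' : ℤ)| ≤ 3 * (N : ℤ) := by
      rw [abs_le] at hv2 ⊢
      have hhN : (h' : ℤ) ≤ N := by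
        have : h' ≤ N := by omega
        exact_mod_cast this
      have hh1 : (0 : ℤ) ≤ h' := Int.natCast_nonneg h'
      constructor <;> linarith [hv2.1, hv2.2]
    have z3 : |YY h h' d d' v| ≤ 12 * (D : ℤ) * N := by
      unfold YY
      refine (abs_sub _ _).trans ?_
      rw [abs_mul, abs_mul, Nat.abs_cast, Nat.abs_cast]
      have y1 : (d' : ℤ) * |2 * v.1 + (h : ℤ)| ≤ (2 * D) * (3 * N) := by
        apply mul_le_mul _ z1 (abs_nonneg _) (by positivity)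
        exact_mod_cast e2
      have y2 : (d : ℤ) * |2 * v.2 + (h' : ℤ)| ≤ (2 * D) * (3 * N) := by
        apply mul_le_mul _ z2 (abs_nonneg _) (by positivity)
        exact_mod_cast d2
      linarith
    exact_mod_cast z3
  obtain ⟨lam, hlam⟩ : ∃ lam : ℝ, lam = (g : ℝ) * (N : ℝ) / (H : ℝ) := ⟨_, rfl⟩
  have hlam0 : 0 < lam := by
    rw [hlam]
    positivity
  have hglam : (g : ℝ) ≤ lam := by
    rw [hlam, le_div_iff₀ hH0]
    exact mul_le_mul_of_nonneg_left hHN' hg0.le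
  -- the choice of `L`
  have hex : ∃ L : ℝ, 0 ≤ L ∧ L / (M : ℝ) ≤ 16000 * (lam * D * N / W) ∧
      ∀ v w, P v → P w → σ v = σ w → |(YY h h' d d' v : ℝ) - (YY h h' d d' w : ℝ)| ≤ L := by
    by_cases hcase : |β| * (u : ℝ) * (N : ℝ) ^ 5 ≤ u
    · refine ⟨24 * (D : ℝ) * N, by positivity, ?_, ?_⟩
      · have hWe : W = u := by
          rw [hWdef]
          exact max_eq_left hcase
        rw [hWe]
        calc 24 * (D : ℝ) * N / (M : ℝ) = 24 * (D : ℝ) * N * (1 / (M : ℝ)) := by ring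
          _ ≤ 24 * (D : ℝ) * N * (10 * g / (u : ℝ)) :=
              mul_le_mul_of_nonneg_left hMu (by positivity)
          _ = 240 * (g * D * N / u) := by ring
          _ ≤ 16000 * (lam * D * N / u) := by
              apply mul_le_mul (by norm_num) _ (by positivity) (by norm_num)
              apply div_le_div_of_nonneg_right _ hu0.le
              apply mul_le_mul_of_nonneg_right _ hN0.le
              exact mul_le_mul_of_nonneg_right hglam hD0.le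
      · intro v w hv hw _
        refine (abs_sub _ _).trans ?_
        linarith [hL1 v hv, hL1 w hw]
    · push Not at hcase
      have hβ0 : 0 < |β| := by
        rcases (abs_nonneg β).eq_or_lt with hb0 | hb0
        · rw [← hb0] at hcase
          simp at hcase
          linarith
        · exact hb0
      have hWe : W = |β| * (u : ℝ) * (N : ℝ) ^ 5 := by
        rw [hWdef]
        exact max_eq_right hcase.le
      obtain ⟨T, hT⟩ : ∃ T : ℝ, T = |β| * (10 * (h' : ℝ) * (d' : ℝ) ^ 3) := ⟨_, rfl⟩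
      have hT0 : 0 < T := by
        rw [hT]
        positivity
      have hTl : |β| * (5 * (H : ℝ) * (D : ℝ) ^ 3) ≤ T := by
        rw [hT]
        apply mul_le_mul_of_nonneg_left _ hβ0.le
        have b1 : 5 * (H : ℝ) ≤ 10 * (h' : ℝ) := by
          have : (H : ℝ) < 2 * h' := by exact_mod_cast hh'
          linarith
        have b2 : (D : ℝ) ^ 3 ≤ (d' : ℝ) ^ 3 := by
          apply pow_le_pow_left₀ hD0.le
          exact_mod_cast e1.le
        exact mul_le_mul b1 b2 (by positivity) (by positivity)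
      refine ⟨64 * (D : ℝ) / (K : ℝ) ^ 3 / T, by positivity, ?_, ?_⟩
      · have hq2 : (N : ℝ) ^ 3 ≤ 125 * (D : ℝ) ^ 3 * (K : ℝ) ^ 3 := by
          have q2' : (N : ℝ) ≤ 5 * D * K := by exact_mod_cast q2
          calc (N : ℝ) ^ 3 ≤ (5 * D * K) ^ 3 := pow_le_pow_left₀ hN0.le q2' 3
            _ = _ := by ring
        have b1 : 64 * (D : ℝ) / (K : ℝ) ^ 3 / T ≤
            64 * (D : ℝ) / (K : ℝ) ^ 3 / (|β| * (5 * (H : ℝ) * (D : ℝ) ^ 3)) :=
          div_le_div_of_nonneg_left (by positivity) (by positivity) hTl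
        calc 64 * (D : ℝ) / (K : ℝ) ^ 3 / T / (M : ℝ)
            = 64 * (D : ℝ) / (K : ℝ) ^ 3 / T * (1 / (M : ℝ)) := by ring
          _ ≤ 64 * (D : ℝ) / (K : ℝ) ^ 3 / (|β| * (5 * (H : ℝ) * (D : ℝ) ^ 3)) *
              (10 * g / (u : ℝ)) := mul_le_mul b1 hMu (by positivity) (by positivity)
          _ = 128 * g / (|β| * (u : ℝ) * H * (D : ℝ) ^ 2) * (1 / (K : ℝ) ^ 3) := by
              field_simp
              norm_num
          _ ≤ 128 * g / (|β| * (u : ℝ) * H * (D : ℝ) ^ 2) * (125 * (D : ℝ) ^ 3 / (N : ℝ) ^ 3) := by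
              apply mul_le_mul_of_nonneg_left _ (by positivity)
              rw [div_le_div_iff₀ (by positivity) (by positivity), one_mul]
              exact hq2
          _ = 16000 * (lam * D * N / W) := by
              rw [hWe, hlam]
              field_simp
              norm_num
      · intro v w hv hw hvw
        rw [le_div_iff₀ hT0, mul_comm]
        have := hL2 v w hv hw hvw
        rw [← hT] at this
        exact this
  obtain ⟨L, hL0, hLM, hLd⟩ := hex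
  have hs0 : 0 ≤ Cs * W / (K : ℝ) ^ 3 := by positivity
  have hmain := countZ N D h h' d d' M q3 d1 d3 e3 hne P hfin hP1 σ (Cs * W / (K : ℝ) ^ 3) L hs0 hL0
    hM1 (fun v hv => (hσ v hv).1) hdv hLd
  have hgoal : (Nat.card {v : ℤ × ℤ // |v.1| ≤ (N : ℤ) ∧ |v.2| ≤ (N : ℤ) ∧
        Close2 K t ((h, d, v.1), (h', d', v.2))} : ℝ) = (Nat.card {v : ℤ × ℤ // P v} : ℝ) := by
    rw [hPdef]
  rw [hgoal, ← hW, ← hlam]
  refine hmain.trans ?_
  have c1 : 2 * (Cs * W / (K : ℝ) ^ 3) + 1 ≤ (2 * Cs + 1) * (1 + W / (K : ℝ) ^ 3) := by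
    have : 0 ≤ W / (K : ℝ) ^ 3 := by positivity
    have e : Cs * W / (K : ℝ) ^ 3 = Cs * (W / (K : ℝ) ^ 3) := by ring
    rw [e]
    nlinarith
  have c2 : 1 + L / (M : ℝ) ≤ 16000 * (1 + lam * D * N / W) := by
    linarith
  have c3 : 1 + 2 * (N : ℝ) / (D : ℝ) ≤ 3 * ((N : ℝ) / (D : ℝ)) := by
    have : 1 ≤ (N : ℝ) / (D : ℝ) := by
      rw [le_div_iff₀ hD0]
      linarith
    have e : 2 * (N : ℝ) / (D : ℝ) = 2 * ((N : ℝ) / (D : ℝ)) := by ring
    rw [e]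
    linarith
  have hLM0 : 0 ≤ L / (M : ℝ) := by positivity
  calc (2 * (Cs * W / (K : ℝ) ^ 3) + 1) * ((1 + L / (M : ℝ)) * (1 + 2 * (N : ℝ) / (D : ℝ)))
      ≤ ((2 * Cs + 1) * (1 + W / (K : ℝ) ^ 3)) *
        ((16000 * (1 + lam * D * N / W)) * (3 * ((N : ℝ) / (D : ℝ)))) := by
        apply mul_le_mul c1 _ (by positivity) (by positivity)
        exact mul_le_mul c2 c3 (by positivity) (by positivity)
    _ = _ := by ring

end Pool.Agent.VM5.H20
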